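import Mathlib

/-!
# Blueprint for MP_5a22fd_pr (the density of `∑ I_n / n`, `P (I_n = 1) = 1/n`, is bounded)

Task X: prove `theorem main ... : Pool.Agent.Q214.RH.TaskX` in `Pool/Agent/Q214/RH/TaskX.lean`
(import this file), namespace `Pool.Agent.Q214.RH.TX`. Tasks named as dependencies in the doc string
may be taken as hypotheses of `main`.
-/

set_option autoImplicit false

namespace Pool.Agent.Q214.RH

open MeasureTheory ProbabilityTheory Finset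
open scoped ENNReal

/-- the uniform law on (0,1] -/
noncomputable def unif : Measure ℝ := volume.restrict (Set.Ioc 0 1)

instance : IsProbabilityMeasure unif := ⟨by simp [unif]⟩

/-- independent uniform variables -/
noncomputable def PU : Measure (ℕ → ℝ) := Measure.infinitePi (fun _ => unif)

instance : IsProbabilityMeasure PU := by unfold PU; infer_instance

/-- the Dickman variable -/
noncomputable def D (u : ℕ → ℝ) : ℝ := ∑' j, ∏ i ∈ range (j + 1), u i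

/-- the chain of the record times after `K` -/
noncomputable def nn (K : ℕ) (u : ℕ → ℝ) : ℕ → ℕ
  | 0 => K
  | j + 1 => ⌈(nn K u j : ℝ) / u j⌉₊

/-- the sum of the reciprocals of the chain -/
noncomputable def tau (K : ℕ) (u : ℕ → ℝ) : ℝ := ∑' j, 1 / (nn K u (j + 1) : ℝ)

/-- the good sequences -/
def Good (u : ℕ → ℝ) : Prop :=
  (∀ i, 0 < u i ∧ u i ≤ 1) ∧ Summable fun j => ∏ i ∈ range (j + 1), u i

/-- the shift -/
def shift (u : ℕ → ℝ) : ℕ → ℝ := fun i => u (i + 1)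

/-- the density of `D` -/
noncomputable def f (x : ℝ) : ℝ :=
  if 0 < x then ∫ u, (if x - 1 ≤ D u then 1 / (1 + D u) else 0) ∂PU else 0

/-- the tail of `D` -/
noncomputable def tl (L : ℝ) : ℝ := PU.real {u | L ≤ D u}

/-- records: `X n` is `I_(n+1)`, independent, `P (I_n = 1) = 1/n`, `P (I_n = 0) = 1 - 1/n` -/
structure Rec {Ω : Type} [MeasurableSpace Ω] (P : Measure Ω) (X : ℕ → Ω → ℝ) : Prop where
  meas : ∀ n, Measurable (X n)
  indep : iIndepFun X P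
  vals : ∀ n ω, X n ω = 0 ∨ X n ω = 1
  law : ∀ n, P {ω | X n ω = 1} = ENNReal.ofReal (1 / ((n : ℝ) + 1))

/-- partial sums -/
noncomputable def A {Ω : Type} (X : ℕ → Ω → ℝ) (K : ℕ) (ω : Ω) : ℝ :=
  ∑ n ∈ range K, X n ω / ((n : ℝ) + 1)

/-- the sum -/
noncomputable def S {Ω : Type} (X : ℕ → Ω → ℝ) (ω : Ω) : ℝ := ∑' n, X n ω / ((n : ℝ) + 1)

/-- the density of `A K + D / K` -/
noncomputable def q {Ω : Type} [MeasurableSpace Ω] (P : Measure Ω) (X : ℕ → Ω → ℝ) (K : ℕ) (s : ℝ) :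
    ℝ := ∫ ω, K * f (K * (s - A X K ω)) ∂P

/-- `P (a ≤ A K + D / K ≤ b)` -/
noncomputable def Ev {Ω : Type} [MeasurableSpace Ω] (P : Measure Ω) (X : ℕ → Ω → ℝ) (K : ℕ)
    (a b : ℝ) : ℝ :=
  (P.prod PU).real {z | a ≤ A X K z.1 + D z.2 / K ∧ A X K z.1 + D z.2 / K ≤ b}

/-- `P (a ≤ S ≤ b)` -/
noncomputable def Sv {Ω : Type} [MeasurableSpace Ω] (P : Measure Ω) (X : ℕ → Ω → ℝ)
    (a b : ℝ) : ℝ := P.real {ω | a ≤ S X ω ∧ S X ω ≤ b}

/-- almost all sequences are good (`∫ ∏ u i = 2^-(j+1)`, `lintegral_tsum`; the values of `unif` are in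
`(0,1]`; each coordinate has law `unif`: `Measure.infinitePi_map_eval` or similar) -/
def TaskGood : Prop := ∀ᵐ u ∂PU, Good u

/-- measurability (`Measurable.tsum`/limits; `nn` by induction, `Nat.measurable_ceil`) -/
def TaskMeas : Prop := Measurable D ∧ ∀ K, Measurable (tau K)

/-- deterministic comparison. With `x j = K / ∏_{i<j} u i` and `n j = nn K u j`: `x j ≤ n j` and
`n j / x j ≤ 1 + ∑_{1 ≤ i ≤ j} 1 / x i ≤ 1 + D u / K`, and `∑_{j ≥ 1} 1 / x j = D u / K`. Hence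
`(D/K)/(1 + D/K) ≤ tau ≤ D/K`. -/
def TaskPath : Prop := ∀ u, Good u → ∀ K : ℕ, 1 ≤ K →
  Summable (fun j => 1 / (nn K u (j + 1) : ℝ)) ∧
  D u / K - (D u / K) ^ 2 ≤ tau K u ∧ tau K u ≤ D u / K

/-- the shift of a good sequence; `D u = u 0 (1 + D (shift u))` -/
def TaskShift : Prop := ∀ u, Good u →
  Good (shift u) ∧ 0 < D u ∧ D u = u 0 * (1 + D (shift u))

/-- `tau K u = 1/n + tau n (shift u)`, `n = ⌈K / u 0⌉₊` (deps: TaskPath for summability) -/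
def TaskTauShift : Prop := ∀ u, Good u → ∀ K : ℕ, 1 ≤ K →
  tau K u = 1 / ((⌈(K : ℝ) / u 0⌉₊ : ℕ) : ℝ) + tau ⌈(K : ℝ) / u 0⌉₊ (shift u)

/-- the first coordinate and the rest are independent (`Measure.eq_infinitePi` for the image of
`unif.prod PU` under `(x, u) ↦ (x, u 0, u 1, ...)`) -/
def TaskSplit : Prop := ∀ g : ℝ × (ℕ → ℝ) → ℝ≥0∞, Measurable g →
  ∫⁻ u, g (u 0, shift u) ∂PU = ∫⁻ x, ∫⁻ u, g (x, u) ∂PU ∂unif

/-- exponential moment (deps: TaskSplit, TaskGood). For the partial sums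
`D_n u = ∑_{j<n} ∏_{i≤j} u i`: `M_{n+1}(s) = ∫_0^1 e^{sx} M_n(s x) dx`, and by induction
`M_n(s) ≤ exp (e^s - 1)` for `s ≥ 0` because `s e^s ≥ e^s - 1`; then Fatou. Conclude with Markov. -/
def TaskTail : Prop := ∃ C : ℝ, 0 < C ∧ ∀ L : ℝ, tl L ≤ C * Real.exp (-L)

/-- `f` is the density of `D` (deps: TaskSplit, TaskShift, TaskGood, TaskMeas): `D = x (1 + D')`,
`x` uniform, so for fixed `D'` substitute `y = x (1 + D')`. -/
def TaskDens : Prop := ∀ g : ℝ → ℝ≥0∞, Measurable g →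
  ∫⁻ u, g (D u) ∂PU = ∫⁻ x, g x * ENNReal.ofReal (f x)

/-- elementary properties of `f` (deps: TaskGood, TaskShift (`D > 0`), TaskMeas) -/
def TaskF1 : Prop := Measurable f ∧ (∀ x, 0 ≤ f x) ∧ (∀ x, f x ≤ 1) ∧ (∀ x, x ≤ 0 → f x = 0) ∧
  (∀ x y, 0 < x → x ≤ y → f y ≤ f x) ∧ (∀ x, f x ≤ tl (x - 1))

/-- lower bound of `f` on `(0,1]`: there `f x = E (1/(1+D)) > 0` (deps: TaskGood, TaskShift) -/
def TaskF2 : Prop := ∃ c : ℝ, 0 < c ∧ ∀ x, 0 < x → x ≤ 1 → c ≤ f x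

/-- Lipschitz bound (deps: TaskDens, TaskF1): `f x - f (x+h) = E (1/(1+D); x-1 ≤ D < x+h-1) ≤
P (x-1 ≤ D ≤ x+h-1) = ∫ f ≤ h` -/
def TaskF3 : Prop := ∀ x h : ℝ, 0 < x → 0 ≤ h → f x ≤ f (x + h) + h

/-- the law of `tau K` in terms of that of `tau (K+1)` (deps: TaskSplit, TaskTauShift, TaskGood,
TaskMeas): `⌈K/x⌉ = K+1` iff `x ≥ K/(K+1)` (up to a null set), and for `x < K/(K+1)` substitute
`x = y K/(K+1)`: `⌈K/x⌉ = ⌈(K+1)/y⌉`. -/
def TaskStep : Prop := ∀ K : ℕ, 1 ≤ K → ∀ g : ℝ → ℝ≥0∞, Measurable g →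
  ∫⁻ u, g (tau K u) ∂PU =
    ENNReal.ofReal (1 / ((K : ℝ) + 1)) * ∫⁻ u, g (1 / ((K : ℝ) + 1) + tau (K + 1) u) ∂PU +
    ENNReal.ofReal ((K : ℝ) / ((K : ℝ) + 1)) * ∫⁻ u, g (tau (K + 1) u) ∂PU

/-- the law of `A K + tau K` does not depend on `K` (deps: TaskStep, TaskMeas): `X K` is independent
of `A X K` and `A X (K+1) = A X K + X K / (K+1)`, `P (X K = 1) = 1/(K+1)`. -/
def TaskInv : Prop := TaskStep → TaskMeas → ∀ (Ω : Type) [MeasurableSpace Ω] (P : Measure Ω)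
  [IsProbabilityMeasure P] (X : ℕ → Ω → ℝ), Rec P X → ∀ K : ℕ, 1 ≤ K →
  ∀ g : ℝ → ℝ≥0∞, Measurable g →
  ∫⁻ ω, ∫⁻ u, g (A X K ω + tau K u) ∂PU ∂P =
    ∫⁻ ω, ∫⁻ u, g (A X (K + 1) ω + tau (K + 1) u) ∂PU ∂P

/-- almost surely the series converges: `∑ E (X n/(n+1)) = ∑ 1/(n+1)^2` -/
def TaskSum : Prop := ∀ (Ω : Type) [MeasurableSpace Ω] (P : Measure Ω)
  [IsProbabilityMeasure P] (X : ℕ → Ω → ℝ), Rec P X →
  ∀ᵐ ω ∂P, Summable fun n => X n ω / ((n : ℝ) + 1)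

/-- the law of `S` is that of `A K + tau K`: by the invariance it suffices to let `K → ∞` for bounded
continuous `g` (`A K → S` a.s. and `0 ≤ tau K ≤ D/K → 0` a.s.); the image measures under
`(ω,u) ↦ A X K ω + tau K u` and under `S` then agree (`ext_of_forall_lintegral_eq_of_IsFiniteMeasure`,
bounded continuous functions to `ℝ≥0`). The hypothesis is the conclusion of TaskInv. -/
def TaskLaw : Prop := TaskGood → TaskMeas → TaskPath → TaskSum → ∀ (Ω : Type) [MeasurableSpace Ω]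
  (P : Measure Ω) [IsProbabilityMeasure P] (X : ℕ → Ω → ℝ), Rec P X →
  (∀ K : ℕ, 1 ≤ K → ∀ g : ℝ → ℝ≥0∞, Measurable g →
    ∫⁻ ω, ∫⁻ u, g (A X K ω + tau K u) ∂PU ∂P =
      ∫⁻ ω, ∫⁻ u, g (A X (K + 1) ω + tau (K + 1) u) ∂PU ∂P) →
  ∀ K : ℕ, 1 ≤ K → ∀ g : ℝ → ℝ≥0∞, Measurable g →
    ∫⁻ ω, g (S X ω) ∂P = ∫⁻ ω, ∫⁻ u, g (A X K ω + tau K u) ∂PU ∂P

/-- comparison of `S` with `A K + D / K`, both ways. Let `g` be the indicator function of `[a,b]` in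
`hlaw`; on `D u ≤ L` one has `D/K - (L/K)^2 ≤ tau K ≤ D/K`. -/
def TaskCmp : Prop := TaskGood → TaskMeas → TaskPath → TaskShift → ∀ (Ω : Type)
  [MeasurableSpace Ω] (P : Measure Ω) [IsProbabilityMeasure P] (X : ℕ → Ω → ℝ), Rec P X →
  (∀ K : ℕ, 1 ≤ K → ∀ g : ℝ → ℝ≥0∞, Measurable g →
    ∫⁻ ω, g (S X ω) ∂P = ∫⁻ ω, ∫⁻ u, g (A X K ω + tau K u) ∂PU ∂P) →
  ∀ K : ℕ, 1 ≤ K → ∀ a b L : ℝ, 0 ≤ L →
    Sv P X a b ≤ Ev P X K a (b + (L / K) ^ 2) + tl L ∧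
    Ev P X K a b ≤ Sv P X (a - (L / K) ^ 2) b + tl L

/-- `q` is the density of `A K + D / K` and is at most `K` (deps as hypotheses) -/
def TaskQ : Prop := TaskDens → TaskF1 → TaskMeas → ∀ (Ω : Type) [MeasurableSpace Ω]
  (P : Measure Ω) [IsProbabilityMeasure P] (X : ℕ → Ω → ℝ), Rec P X → ∀ K : ℕ, 1 ≤ K →
  Measurable (q P X K) ∧ (∀ s, 0 ≤ q P X K s) ∧ (∀ s, q P X K s ≤ K) ∧
    ∀ a b : ℝ, a ≤ b → Ev P X K a b = ∫ s in a..b, q P X K s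

/-- concentration of `A K`: `c K P (s - 1/K ≤ A < s) ≤ q s ≤ M`; cover `[s - L/K, s)` by at most
`L + 1` such intervals -/
def TaskConc : Prop := TaskF1 → ∀ c : ℝ, 0 < c → (∀ x, 0 < x → x ≤ 1 → c ≤ f x) →
  ∀ (Ω : Type) [MeasurableSpace Ω] (P : Measure Ω) [IsProbabilityMeasure P] (X : ℕ → Ω → ℝ),
  Rec P X → ∀ K : ℕ, 1 ≤ K → ∀ M : ℝ, (∀ s, q P X K s ≤ M) → ∀ s L : ℝ, 0 ≤ L →
    P.real {ω | s - L / K ≤ A X K ω ∧ A X K ω < s} ≤ (L + 1) * M / (c * K)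

/-- for `0 ≤ h ≤ l`: `f (K (s - A)) ≤ f (K (s + h - A)) + K l 1[0 < K (s-A) ≤ L] + tl (L-1)`, hence
(with the concentration bound as hypothesis `hc`) the pointwise inequality -/
def TaskLow : Prop := TaskF1 → TaskF3 → ∀ c : ℝ, 0 < c →
  ∀ (Ω : Type) [MeasurableSpace Ω] (P : Measure Ω) [IsProbabilityMeasure P] (X : ℕ → Ω → ℝ),
  Rec P X → ∀ K : ℕ, 1 ≤ K → ∀ M : ℝ,
  (∀ s L : ℝ, 0 ≤ L →
    P.real {ω | s - L / K ≤ A X K ω ∧ A X K ω < s} ≤ (L + 1) * M / (c * K)) →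
  ∀ s l h L : ℝ, 0 ≤ h → h ≤ l → 1 ≤ L →
    q P X K s ≤ q P X K (s + h) + K * l * (L + 1) * M / c + K * tl (L - 1)

/-- the numerical iteration. Take `K' = x` large and `K = x * Nat.sqrt x`, `L = x^(1/16)`,
`l = x^(-7/4)`: the inequality becomes `m K (1 - ε) ≤ m x (1 + ε) + ε` with `ε = C' x^(-1/8)`; the
product over `x_0, x_1 = x_0 * Nat.sqrt x_0, ...` (which grows at least like `2^j`) converges. -/
def TaskIter : Prop := ∀ c C : ℝ, 0 < c → 0 < C → ∀ m : ℕ → ℝ, (∀ K, 0 ≤ m K) →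
  (∀ K' K : ℕ, 1 ≤ K' → 1 ≤ K → ∀ l L : ℝ, 0 < l → 1 ≤ L →
    m K ≤ (m K' * (l + (L / K) ^ 2 + (L / K') ^ 2) + 2 * C * Real.exp (-L)) / l +
      K * l * (L + 1) * m K / c + K * (C * Real.exp (1 - L))) →
  ∃ B : ℝ, ∃ k : ℕ → ℕ, (∀ j, 1 ≤ k j) ∧ Filter.Tendsto k Filter.atTop Filter.atTop ∧
    ∀ j, m (k j) ≤ B

/-- from intervals to Borel sets (`Measure.le_of_...`, e.g. Vitali/outer regularity: the law of `S`
is dominated by `B` times Lebesgue measure on half open intervals, so on open sets, so on Borel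
sets) -/
def TaskBorel : Prop := ∀ (ν : Measure ℝ) [IsProbabilityMeasure ν] (B : ℝ), 0 ≤ B →
  (∀ a b : ℝ, a ≤ b → ν.real (Set.Icc a b) ≤ B * (b - a)) →
  ∀ E : Set ℝ, MeasurableSet E → ν E ≤ ENNReal.ofReal B * volume E

end Pool.Agent.Q214.RH
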