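import Mathlib
import Pool.Agent.Q214.RH.Stmts

/-!
# The assembly
-/

set_option autoImplicit false

namespace Pool.Agent.Q214.RH

open MeasureTheory ProbabilityTheory Finset
open scoped ENNReal

/-- the sum of the records is measurable -/
theorem meas_S {Ω : Type} [MeasurableSpace Ω] {P : Measure Ω} {X : ℕ → Ω → ℝ} (h : Rec P X) :
    Measurable (S X) := by
  unfold S
  exact Measurable.tsum fun n => (h.meas n).div_const _

theorem tl_nonneg (L : ℝ) : 0 ≤ tl L := measureReal_nonneg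

theorem asm (hGood : TaskGood) (hMeas : TaskMeas) (hPath : TaskPath) (hShift : TaskShift)
    (hTail : TaskTail) (hDens : TaskDens) (hF1 : TaskF1) (hF2 : TaskF2) (hF3 : TaskF3)
    (hStep : TaskStep) (hInv : TaskInv) (hSum : TaskSum) (hLaw : TaskLaw) (hCmp : TaskCmp)
    (hQ : TaskQ) (hConc : TaskConc) (hLow : TaskLow) (hIter : TaskIter) (hBorel : TaskBorel)
    (Ω : Type) [MeasurableSpace Ω] (P : Measure Ω) [IsProbabilityMeasure P] (X : ℕ → Ω → ℝ)
    (hX : Rec P X) :
    ∃ B : ℝ, 0 ≤ B ∧ ∀ E : Set ℝ, MeasurableSet E → (P.map (S X)) E ≤ ENNReal.ofReal B * volume E := by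
  obtain ⟨C, hC, htl⟩ := hTail
  obtain ⟨c, hc, hfc⟩ := hF2
  have hinv := hInv hStep hMeas Ω P X hX
  have hlaw := hLaw hGood hMeas hPath hSum Ω P X hX hinv
  have hcmp := hCmp hGood hMeas hPath hShift Ω P X hX hlaw
  have hq := hQ hDens hF1 hMeas Ω P X hX
  obtain ⟨m, hm⟩ : ∃ m : ℕ → ℝ, ∀ K, m K = ⨆ s, q P X K s := ⟨_, fun K => rfl⟩
  have hbdd : ∀ K : ℕ, 1 ≤ K → BddAbove (Set.range (q P X K)) := fun K hK =>
    ⟨K, by
      rintro _ ⟨s, rfl⟩
      exact (hq K hK).2.2.1 s⟩
  have hle : ∀ K : ℕ, 1 ≤ K → ∀ s, q P X K s ≤ m K := fun K hK s => by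
    rw [hm]
    exact le_ciSup (hbdd K hK) s
  have hm0 : ∀ K, 0 ≤ m K := fun K => by
    rw [hm]
    refine Real.iSup_nonneg fun s => ?_
    unfold q
    refine integral_nonneg fun ω => ?_
    exact mul_nonneg (Nat.cast_nonneg _) (hF1.2.1 _)
  have hEv : ∀ K : ℕ, 1 ≤ K → ∀ a b : ℝ, a ≤ b → Ev P X K a b ≤ m K * (b - a) := by
    intro K hK a b hab
    obtain ⟨h1, h2, h3, h4⟩ := hq K hK
    rw [h4 a b hab]
    have hint : IntervalIntegrable (q P X K) volume a b := by
      rw [intervalIntegrable_iff_integrableOn_Ioc_of_le hab]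
      refine Measure.integrableOn_of_bounded (M := K) (by simp) h1.aestronglyMeasurable ?_
      refine Filter.Eventually.of_forall fun s => ?_
      rw [Real.norm_of_nonneg (h2 s)]
      exact h3 s
    have h5 := intervalIntegral.integral_mono_on hab hint
      (intervalIntegrable_const (c := m K)) (fun s _ => hle K hK s)
    rw [intervalIntegral.integral_const, smul_eq_mul] at h5
    linarith
  have hrec : ∀ K' K : ℕ, 1 ≤ K' → 1 ≤ K → ∀ l L : ℝ, 0 < l → 1 ≤ L →
      m K ≤ (m K' * (l + (L / K) ^ 2 + (L / K') ^ 2) + 2 * C * Real.exp (-L)) / l +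
        K * l * (L + 1) * m K / c + K * (C * Real.exp (1 - L)) := by
    intro K' K hK' hK l L hl hL
    have hL0 : 0 ≤ L := by linarith
    rw [hm K]
    refine ciSup_le fun s => ?_
    rw [← hm K]
    obtain ⟨h1, h2, h3, h4⟩ := hq K hK
    have hconc := hConc hF1 c hc hfc Ω P X hX K hK (m K) (hle K hK)
    have hlow := hLow hF1 hF3 c hc Ω P X hX K hK (m K) hconc
    have hint : IntervalIntegrable (q P X K) volume s (s + l) := by
      rw [intervalIntegrable_iff_integrableOn_Ioc_of_le (by linarith)]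
      refine Measure.integrableOn_of_bounded (M := K) (by simp) h1.aestronglyMeasurable ?_
      refine Filter.Eventually.of_forall fun s => ?_
      rw [Real.norm_of_nonneg (h2 s)]
      exact h3 s
    have h5 : ∫ _y in s..(s + l), (q P X K s - (K * l * (L + 1) * m K / c + K * tl (L - 1))) ≤
        ∫ y in s..(s + l), q P X K y := by
      refine intervalIntegral.integral_mono_on (by linarith) (intervalIntegrable_const) hint
        fun y hy => ?_
      have h6 := hlow s l (y - s) L (by linarith [hy.1]) (by linarith [hy.2]) hL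
      rw [add_sub_cancel] at h6
      linarith
    rw [intervalIntegral.integral_const, smul_eq_mul, ← h4 s (s + l) (by linarith)] at h5
    have h7 := (hcmp K hK s (s + l) L hL0).2
    have h8 := (hcmp K' hK' (s - (L / K) ^ 2) (s + l) L hL0).1
    have h9 := hEv K' hK' (s - (L / K) ^ 2) (s + l + (L / K') ^ 2) (by
      have : 0 ≤ (L / K) ^ 2 := sq_nonneg _
      have : 0 ≤ (L / K') ^ 2 := sq_nonneg _
      linarith)
    have h10 := htl L
    have h11 := htl (L - 1)
    have h12 : -(L - 1) = 1 - L := by ring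
    rw [h12] at h11
    have h13 : (K : ℝ) * tl (L - 1) ≤ K * (C * Real.exp (1 - L)) :=
      mul_le_mul_of_nonneg_left h11 (Nat.cast_nonneg _)
    have h14 : q P X K s - (K * l * (L + 1) * m K / c + K * tl (L - 1)) ≤
        (m K' * (l + (L / K) ^ 2 + (L / K') ^ 2) + 2 * C * Real.exp (-L)) / l := by
      rw [le_div_iff₀ hl]
      have h15 : m K' * (s + l + (L / K') ^ 2 - (s - (L / K) ^ 2)) =
          m K' * (l + (L / K) ^ 2 + (L / K') ^ 2) := by ring
      rw [h15] at h9
      have h16 : (s + l - s) * (q P X K s - (K * l * (L + 1) * m K / c + K * tl (L - 1))) =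
          (q P X K s - (K * l * (L + 1) * m K / c + K * tl (L - 1))) * l := by ring
      rw [h16] at h5
      linarith
    linarith
  obtain ⟨B, k, hk1, hk, hB⟩ := hIter c C hc hC m hm0 hrec
  have hB0 : 0 ≤ B := (hm0 (k 0)).trans (hB 0)
  have hν : IsProbabilityMeasure (P.map (S X)) :=
    Measure.isProbabilityMeasure_map (meas_S hX).aemeasurable
  refine ⟨B, hB0, hBorel (P.map (S X)) B hB0 fun a b hab => ?_⟩
  have e1 : (P.map (S X)).real (Set.Icc a b) = Sv P X a b := by
    rw [map_measureReal_apply (meas_S hX) measurableSet_Icc]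
    rfl
  rw [e1]
  -- for every `ε > 0`
  refine le_of_forall_pos_le_add fun ε hε => ?_
  -- choose `L` with `C exp (-L) ≤ ε / 2`
  obtain ⟨L, hL0, hLε⟩ : ∃ L : ℝ, 0 ≤ L ∧ C * Real.exp (-L) ≤ ε / 2 := by
    have h1 : Filter.Tendsto (fun L : ℝ => C * Real.exp (-L)) Filter.atTop (nhds (C * 0)) :=
      (Real.tendsto_exp_neg_atTop_nhds_zero).const_mul C
    rw [mul_zero] at h1
    have h2 := (h1.eventually (ge_mem_nhds (show (0 : ℝ) < ε / 2 by linarith))).and
      (Filter.eventually_ge_atTop (0 : ℝ))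
    obtain ⟨L, hL⟩ := h2.exists
    exact ⟨L, hL.2, hL.1⟩
  -- choose `j` with `B (L / k j)^2 ≤ ε / 2`
  obtain ⟨j, hj⟩ : ∃ j, B * (L / (k j : ℝ)) ^ 2 ≤ ε / 2 := by
    have h1 : Filter.Tendsto (fun j => (k j : ℝ)) Filter.atTop Filter.atTop :=
      tendsto_natCast_atTop_atTop.comp hk
    have h2 : Filter.Tendsto (fun j => B * (L / (k j : ℝ)) ^ 2) Filter.atTop
        (nhds (B * 0 ^ 2)) := ((h1.const_div_atTop L).pow 2).const_mul B
    have h3 : B * (0 : ℝ) ^ 2 = 0 := by ring
    rw [h3] at h2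
    exact (h2.eventually (ge_mem_nhds (show (0 : ℝ) < ε / 2 by linarith))).exists
  have h1 := (hcmp (k j) (hk1 j) a b L hL0).1
  have h2 := hEv (k j) (hk1 j) a (b + (L / (k j : ℝ)) ^ 2) (by
    have : 0 ≤ (L / (k j : ℝ)) ^ 2 := sq_nonneg _
    linarith)
  have h3 : m (k j) * (b + (L / (k j : ℝ)) ^ 2 - a) ≤ B * (b + (L / (k j : ℝ)) ^ 2 - a) := by
    refine mul_le_mul_of_nonneg_right (hB j) ?_
    have : 0 ≤ (L / (k j : ℝ)) ^ 2 := sq_nonneg _
    linarith
  have h4 := htl L
  have h5 : B * (b + (L / (k j : ℝ)) ^ 2 - a) = B * (b - a) + B * (L / (k j : ℝ)) ^ 2 := by ring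
  linarith

end Pool.Agent.Q214.RH
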