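import Mathlib
import Pool.Agent.Q214.RH.Stmts

set_option autoImplicit false

namespace Pool.Agent.Q214.RH.TBorel

open MeasureTheory Filter Set

theorem main : Pool.Agent.Q214.RH.TaskBorel := by
  intro ν _ B hB h E _
  have key : ν E ≤ (B.toNNReal • (volume : Measure ℝ)) E := by
    refine (Besicovitch.vitaliFamily ν).measure_le_of_frequently_le _ Measure.AbsolutelyContinuous.rfl E
      fun x _ => ?_
    refine Eventually.frequently ?_
    filter_upwards [(Besicovitch.vitaliFamily ν).eventually_filterAt_mem_setsAt x] with a ha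
    obtain ⟨r, hr, rfl⟩ := ha
    have hr' : (0 : ℝ) < r := hr
    change ν (Metric.closedBall x r) ≤ (B.toNNReal • (volume : Measure ℝ)) (Metric.closedBall x r)
    rw [Real.closedBall_eq_Icc, Measure.smul_apply, Real.volume_Icc]
    have h1 := h (x - r) (x + r) (by linarith)
    rw [← ofReal_measureReal (μ := ν) (s := Icc (x - r) (x + r))]
    calc ENNReal.ofReal (ν.real (Icc (x - r) (x + r)))
        ≤ ENNReal.ofReal (B * (x + r - (x - r))) := ENNReal.ofReal_le_ofReal h1
      _ = ENNReal.ofReal B * ENNReal.ofReal (x + r - (x - r)) := ENNReal.ofReal_mul hB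
      _ = B.toNNReal • ENNReal.ofReal (x + r - (x - r)) := by
          rw [ENNReal.smul_def, smul_eq_mul]; rfl
  refine key.trans (le_of_eq ?_)
  rw [Measure.smul_apply, ENNReal.smul_def, smul_eq_mul]
  rfl

end Pool.Agent.Q214.RH.TBorel
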