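import Mathlib
import Pool.Agent.Q214.RH.Stmts

set_option autoImplicit false

namespace Pool.Agent.Q214.RH.TCmp

open MeasureTheory ProbabilityTheory Finset
open scoped ENNReal

variable {Ω : Type} [MeasurableSpace Ω]

/-- measurability of the sum -/
theorem measS (P : Measure Ω) (X : ℕ → Ω → ℝ) (hX : Rec P X) : Measurable (S X) := by
  have h0 : ∀ n ω, 0 ≤ X n ω / ((n : ℝ) + 1) := by
    intro n ω
    rcases hX.vals n ω with h | h
    · rw [h]; simp
    · rw [h]; positivity
  have h1 : S X = fun ω => (∑' n, ENNReal.ofReal (X n ω / ((n : ℝ) + 1))).toReal := by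
    funext ω
    unfold S
    rw [ENNReal.tsum_toReal_eq (fun a => ENNReal.ofReal_ne_top)]
    refine tsum_congr fun n => ?_
    rw [ENNReal.toReal_ofReal (h0 n ω)]
  rw [h1]
  refine Measurable.ennreal_toReal (Measurable.ennreal_tsum fun n => ?_)
  exact ((hX.meas n).div_const _).ennreal_ofReal

/-- measurability of the partial sums -/
theorem measA (P : Measure Ω) (X : ℕ → Ω → ℝ) (hX : Rec P X) (K : ℕ) : Measurable (A X K) := by
  unfold A
  exact Finset.measurable_sum _ fun n _ => (hX.meas n).div_const _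

/-- comparison of events up to the tail of `D` -/
theorem base (hG : TaskGood) (P : Measure Ω) [IsProbabilityMeasure P] (L : ℝ)
    (T U : Set (Ω × (ℕ → ℝ)))
    (h : ∀ z, z ∈ T → Good z.2 → D z.2 < L → z ∈ U) :
    (P.prod PU).real T ≤ (P.prod PU).real U + tl L := by
  have hsub : T ⊆ (U ∪ (Set.univ ×ˢ {u | L ≤ D u})) ∪ (Set.univ ×ˢ {u | ¬ Good u}) := by
    intro z hz
    by_cases g : Good z.2
    · by_cases hD : D z.2 < L
      · exact Or.inl (Or.inl (h z hz g hD))
      · exact Or.inl (Or.inr ⟨Set.mem_univ _, not_lt.1 hD⟩)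
    · exact Or.inr ⟨Set.mem_univ _, g⟩
  have h1 : (P.prod PU).real (Set.univ ×ˢ {u | L ≤ D u}) = tl L := by
    unfold tl Measure.real
    rw [Measure.prod_prod, measure_univ, one_mul]
  have h2 : (P.prod PU).real (Set.univ ×ˢ {u | ¬ Good u}) = 0 := by
    unfold Measure.real
    have : PU {u | ¬ Good u} = 0 := hG
    rw [Measure.prod_prod, this]
    simp
  calc (P.prod PU).real T
      ≤ (P.prod PU).real ((U ∪ (Set.univ ×ˢ {u | L ≤ D u})) ∪ (Set.univ ×ˢ {u | ¬ Good u})) :=
        measureReal_mono hsub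
    _ ≤ (P.prod PU).real (U ∪ (Set.univ ×ˢ {u | L ≤ D u})) +
        (P.prod PU).real (Set.univ ×ˢ {u | ¬ Good u}) := measureReal_union_le _ _
    _ ≤ (P.prod PU).real U + (P.prod PU).real (Set.univ ×ˢ {u | L ≤ D u}) +
        (P.prod PU).real (Set.univ ×ˢ {u | ¬ Good u}) := by
        gcongr
        exact measureReal_union_le _ _
    _ = (P.prod PU).real U + tl L := by rw [h1, h2, add_zero]

/-- `Sv` in terms of `A K + tau K` -/
theorem sv_eq (hM : TaskMeas) (P : Measure Ω) [IsProbabilityMeasure P] (X : ℕ → Ω → ℝ)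
    (hX : Rec P X)
    (hlaw : ∀ K : ℕ, 1 ≤ K → ∀ g : ℝ → ℝ≥0∞, Measurable g →
      ∫⁻ ω, g (S X ω) ∂P = ∫⁻ ω, ∫⁻ u, g (A X K ω + tau K u) ∂PU ∂P)
    (K : ℕ) (hK : 1 ≤ K) (a b : ℝ) :
    Sv P X a b = (P.prod PU).real {z | a ≤ A X K z.1 + tau K z.2 ∧ A X K z.1 + tau K z.2 ≤ b} := by
  have hI : MeasurableSet (Set.Icc a b) := measurableSet_Icc
  have hg : Measurable ((Set.Icc a b).indicator (fun _ => (1 : ℝ≥0∞))) :=
    measurable_const.indicator hI
  have hS := measS P X hX
  have hF : Measurable (fun z : Ω × (ℕ → ℝ) => A X K z.1 + tau K z.2) :=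
    ((measA P X hX K).comp measurable_fst).add ((hM.2 K).comp measurable_snd)
  have e := hlaw K hK _ hg
  have e1 : ∫⁻ ω, (Set.Icc a b).indicator (fun _ => (1 : ℝ≥0∞)) (S X ω) ∂P =
      P {ω | a ≤ S X ω ∧ S X ω ≤ b} := by
    have : (fun ω => (Set.Icc a b).indicator (fun _ => (1 : ℝ≥0∞)) (S X ω)) =
        ((S X) ⁻¹' (Set.Icc a b)).indicator (fun _ => (1 : ℝ≥0∞)) := by
      funext ω
      rfl
    rw [this, lintegral_indicator (hS hI)]
    simp only [lintegral_const, one_mul, Measure.restrict_apply MeasurableSet.univ, Set.univ_inter]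
    rfl
  have e2 : ∫⁻ ω, ∫⁻ u, (Set.Icc a b).indicator (fun _ => (1 : ℝ≥0∞)) (A X K ω + tau K u) ∂PU ∂P =
      (P.prod PU) {z | a ≤ A X K z.1 + tau K z.2 ∧ A X K z.1 + tau K z.2 ≤ b} := by
    have hprod := lintegral_prod (μ := P) (ν := PU)
      (fun z : Ω × (ℕ → ℝ) => (Set.Icc a b).indicator (fun _ => (1 : ℝ≥0∞))
        (A X K z.1 + tau K z.2)) (hg.comp hF).aemeasurable
    rw [← hprod]
    have : (fun z : Ω × (ℕ → ℝ) => (Set.Icc a b).indicator (fun _ => (1 : ℝ≥0∞))
        (A X K z.1 + tau K z.2)) =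
        ((fun z : Ω × (ℕ → ℝ) => A X K z.1 + tau K z.2) ⁻¹' (Set.Icc a b)).indicator
          (fun _ => (1 : ℝ≥0∞)) := by
      funext z
      rfl
    rw [this, lintegral_indicator (hF hI)]
    simp only [lintegral_const, one_mul, Measure.restrict_apply MeasurableSet.univ, Set.univ_inter]
    rfl
  rw [e1, e2] at e
  unfold Sv Measure.real
  rw [e]

theorem main : TaskCmp := by
  intro hG hM hPath hShift Ω _ P _ X hX hlaw K hK a b L hL
  have hK0 : (0 : ℝ) < K := by exact_mod_cast hK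
  have hsq : ∀ u, Good u → D u < L → (D u / K) ^ 2 ≤ (L / K) ^ 2 := by
    intro u hu hD
    have h0 := (hShift u hu).2.1
    have : D u / K ≤ L / K := by gcongr
    have h1 : 0 ≤ D u / K := by positivity
    exact pow_le_pow_left₀ h1 this 2
  constructor
  · rw [sv_eq hM P X hX hlaw K hK a b]
    unfold Ev
    apply base hG P L
    rintro z ⟨h1, h2⟩ hg hD
    obtain ⟨_, h3, h4⟩ := hPath z.2 hg K hK
    have h5 := hsq z.2 hg hD
    constructor <;> [linarith; linarith]
  · rw [sv_eq hM P X hX hlaw K hK (a - (L / K) ^ 2) b]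
    unfold Ev
    apply base hG P L
    rintro z ⟨h1, h2⟩ hg hD
    obtain ⟨_, h3, h4⟩ := hPath z.2 hg K hK
    have h5 := hsq z.2 hg hD
    constructor <;> [linarith; linarith]

end Pool.Agent.Q214.RH.TCmp

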