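import Pool.Agent.Q214.RH.Stmts

set_option autoImplicit false

namespace Pool.Agent.Q214.RH.TConc

open MeasureTheory ProbabilityTheory Pool.Agent.Q214.RH

theorem main : Pool.Agent.Q214.RH.TaskConc := by
  intro hF c hc hfc Ω _ P _ X hX K hK M hM s L hL
  obtain ⟨hfm, hf0, hf1, -, -, -⟩ := hF
  have hK0 : (0 : ℝ) < K := by exact_mod_cast hK
  have hA : Measurable (A X K) := by
    unfold A
    exact Finset.measurable_sum _ fun n _ => (hX.meas n).div_const _
  have hint : ∀ t : ℝ, Integrable (fun ω => (K : ℝ) * f (K * (t - A X K ω))) P := by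
    intro t
    refine Integrable.of_bound ((measurable_const.mul (hfm.comp (measurable_const.mul
      (measurable_const.sub hA)))).aestronglyMeasurable) (K : ℝ) (ae_of_all _ fun ω => ?_)
    rw [Real.norm_eq_abs, abs_of_nonneg (mul_nonneg hK0.le (hf0 _))]
    have := mul_le_mul_of_nonneg_left (hf1 (K * (t - A X K ω))) hK0.le
    linarith
  have hB : ∀ t : ℝ, P.real {ω | t - 1 / K ≤ A X K ω ∧ A X K ω < t} ≤ M / (c * K) := by
    intro t
    have hBm : MeasurableSet {ω | t - 1 / K ≤ A X K ω ∧ A X K ω < t} :=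
      (measurableSet_le measurable_const hA).inter (measurableSet_lt hA measurable_const)
    have h1 : ∫ ω, Set.indicator {ω | t - 1 / K ≤ A X K ω ∧ A X K ω < t}
        (fun _ => (K : ℝ) * c) ω ∂P ≤ q P X K t := by
      refine integral_mono ((integrable_const _).indicator hBm) (hint t) fun ω => ?_
      by_cases hω : ω ∈ {ω | t - 1 / K ≤ A X K ω ∧ A X K ω < t}
      · rw [Set.indicator_of_mem hω]
        have h3 : 0 < (K : ℝ) * (t - A X K ω) := mul_pos hK0 (sub_pos.2 hω.2)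
        have h4 : (K : ℝ) * (t - A X K ω) ≤ 1 := by
          have h5 : t - A X K ω ≤ 1 / K := by linarith [hω.1]
          calc (K : ℝ) * (t - A X K ω) ≤ K * (1 / K) := mul_le_mul_of_nonneg_left h5 hK0.le
            _ = 1 := by field_simp
        exact mul_le_mul_of_nonneg_left (hfc _ h3 h4) hK0.le
      · rw [Set.indicator_of_notMem hω]
        exact mul_nonneg hK0.le (hf0 _)
    rw [integral_indicator_const _ hBm, smul_eq_mul] at h1
    have h2 := h1.trans (hM t)
    rw [le_div_iff₀ (by positivity)]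
    linarith
  have hM0 : 0 ≤ M := (integral_nonneg fun ω => mul_nonneg hK0.le (hf0 _)).trans (hM 0)
  have hsub : {ω | s - L / K ≤ A X K ω ∧ A X K ω < s} ⊆
      ⋃ i ∈ Finset.range ⌈L⌉₊,
        {ω | (s - (i : ℝ) / K) - 1 / K ≤ A X K ω ∧ A X K ω < s - (i : ℝ) / K} := by
    rintro ω ⟨h1, h2⟩
    simp only [Set.mem_iUnion]
    have hy0 : 0 < (K : ℝ) * (s - A X K ω) := mul_pos hK0 (sub_pos.2 h2)
    have hyL : (K : ℝ) * (s - A X K ω) ≤ L := by
      have h5 : s - A X K ω ≤ L / K := by linarith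
      calc (K : ℝ) * (s - A X K ω) ≤ K * (L / K) := mul_le_mul_of_nonneg_left h5 hK0.le
        _ = L := by field_simp
    have hc1 : 0 < ⌈(K : ℝ) * (s - A X K ω)⌉₊ := Nat.ceil_pos.2 hy0
    obtain ⟨i, hi⟩ := Nat.exists_eq_succ_of_ne_zero hc1.ne'
    have hle : ⌈(K : ℝ) * (s - A X K ω)⌉₊ ≤ ⌈L⌉₊ := Nat.ceil_mono hyL
    have h6 : (K : ℝ) * (s - A X K ω) ≤ (i : ℝ) + 1 := by
      have := Nat.le_ceil ((K : ℝ) * (s - A X K ω))
      rw [hi] at this
      exact_mod_cast this
    have h7 : (i : ℝ) < (K : ℝ) * (s - A X K ω) := Nat.lt_ceil.1 (by omega)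
    refine ⟨i, Finset.mem_range.2 (by omega), ?_, ?_⟩
    · have h8 : s - A X K ω ≤ ((i : ℝ) + 1) / K := by
        rw [le_div_iff₀' hK0]
        exact h6
      have h9 : ((i : ℝ) + 1) / K = (i : ℝ) / K + 1 / K := add_div _ _ _
      linarith
    · have h8 : (i : ℝ) / K < s - A X K ω := by
        rw [div_lt_iff₀' hK0]
        exact h7
      linarith
  calc P.real {ω | s - L / K ≤ A X K ω ∧ A X K ω < s} ≤
        P.real (⋃ i ∈ Finset.range ⌈L⌉₊,
        {ω | (s - (i : ℝ) / K) - 1 / K ≤ A X K ω ∧ A X K ω < s - (i : ℝ) / K}) :=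
          measureReal_mono hsub (measure_ne_top P _)
    _ ≤ ∑ i ∈ Finset.range ⌈L⌉₊,
        P.real {ω | (s - (i : ℝ) / K) - 1 / K ≤ A X K ω ∧ A X K ω < s - (i : ℝ) / K} :=
          measureReal_biUnion_finset_le _ _
    _ ≤ ∑ i ∈ Finset.range ⌈L⌉₊, M / (c * K) := Finset.sum_le_sum fun i _ => hB _
    _ = (⌈L⌉₊ : ℝ) * (M / (c * K)) := by
          rw [Finset.sum_const, Finset.card_range, nsmul_eq_mul]
    _ ≤ (L + 1) * (M / (c * K)) :=
          mul_le_mul_of_nonneg_right (Nat.ceil_lt_add_one hL).le (by positivity)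
    _ = (L + 1) * M / (c * K) := by rw [mul_div_assoc]

end Pool.Agent.Q214.RH.TConc
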