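import Pool.Agent.Q214.RH.Stmts

set_option autoImplicit false

namespace Pool.Agent.Q214.RH.TDens

open MeasureTheory ProbabilityTheory Finset
open scoped ENNReal

/-- the kernel -/
noncomputable def ker (y : ℝ) (u : ℕ → ℝ) : ℝ≥0∞ :=
  if 0 < y ∧ y ≤ 1 + D u then ENNReal.ofReal (1 / (1 + D u)) else 0

lemma meas_ker (hD : Measurable D) : Measurable (fun z : ℝ × (ℕ → ℝ) => ker z.1 z.2) := by
  unfold ker
  refine Measurable.ite ?_ ?_ measurable_const
  · exact (measurableSet_lt measurable_const measurable_fst).inter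
      (measurableSet_le measurable_fst (measurable_const.add (hD.comp measurable_snd)))
  · exact ENNReal.measurable_ofReal.comp
      (measurable_const.div (measurable_const.add (hD.comp measurable_snd)))

lemma subst (g : ℝ → ℝ≥0∞) (hg : Measurable g) (c : ℝ) (hc : 0 < c) :
    ∫⁻ x, g (x * c) ∂unif = ∫⁻ y, g y * (if 0 < y ∧ y ≤ c then ENNReal.ofReal (1 / c) else 0) := by
  have h1 : ∫⁻ x, g (x * c) ∂unif = ∫⁻ x, (Set.Ioc 0 c).indicator g (x * c) := by
    unfold unif
    rw [← lintegral_indicator measurableSet_Ioc]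
    refine lintegral_congr fun x => ?_
    by_cases hx : x ∈ Set.Ioc (0 : ℝ) 1
    · have hx' : x * c ∈ Set.Ioc (0 : ℝ) c := ⟨mul_pos hx.1 hc, by nlinarith [hx.2]⟩
      rw [Set.indicator_of_mem hx, Set.indicator_of_mem hx']
    · have hx' : x * c ∉ Set.Ioc (0 : ℝ) c := by
        intro h
        refine hx ⟨?_, ?_⟩
        · exact (pos_iff_pos_of_mul_pos h.1).2 hc
        · have := h.2
          by_contra hlt
          push Not at hlt
          nlinarith
      rw [Set.indicator_of_notMem hx, Set.indicator_of_notMem hx']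
  have h2 : ∫⁻ x, (Set.Ioc 0 c).indicator g (x * c) =
      ENNReal.ofReal |c⁻¹| * ∫⁻ y, (Set.Ioc 0 c).indicator g y := by
    have hm : Measurable ((Set.Ioc 0 c).indicator g) := hg.indicator measurableSet_Ioc
    have e := lintegral_map (μ := (volume : Measure ℝ)) (g := fun x : ℝ => x * c) hm
      (measurable_id.mul_const c)
    rw [← e, Real.map_volume_mul_right hc.ne', lintegral_smul_measure]
    rfl
  rw [h1, h2, ← lintegral_const_mul _ (hg.indicator measurableSet_Ioc)]
  refine lintegral_congr fun y => ?_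
  by_cases hy : 0 < y ∧ y ≤ c
  · rw [Set.indicator_of_mem (show y ∈ Set.Ioc 0 c from hy), if_pos hy, abs_of_pos (inv_pos.2 hc),
      one_div, mul_comm]
  · rw [Set.indicator_of_notMem (show y ∉ Set.Ioc 0 c from hy), if_neg hy, mul_zero, mul_zero]

theorem main (hSplit : TaskSplit) (hShift : TaskShift) (hGood : TaskGood) (hMeas : TaskMeas) :
    Pool.Agent.Q214.RH.TaskDens := by
  intro g hg
  have hD := hMeas.1
  have hpos : ∀ᵐ u ∂PU, 0 < D u := by
    filter_upwards [hGood] with u hu using (hShift u hu).2.1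
  have s1 : ∫⁻ u, g (D u) ∂PU = ∫⁻ u, g (u 0 * (1 + D (shift u))) ∂PU := by
    refine lintegral_congr_ae ?_
    filter_upwards [hGood] with u hu
    rw [← (hShift u hu).2.2]
  have hG : Measurable (fun z : ℝ × (ℕ → ℝ) => g (z.1 * (1 + D z.2))) :=
    hg.comp (measurable_fst.mul (measurable_const.add (hD.comp measurable_snd)))
  have s2 : ∫⁻ u, g (u 0 * (1 + D (shift u))) ∂PU =
      ∫⁻ x, ∫⁻ u, g (x * (1 + D u)) ∂PU ∂unif := hSplit _ hG
  have s3 : ∫⁻ x, ∫⁻ u, g (x * (1 + D u)) ∂PU ∂unif =
      ∫⁻ u, ∫⁻ x, g (x * (1 + D u)) ∂unif ∂PU :=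
    lintegral_lintegral_swap (f := fun x u => g (x * (1 + D u))) hG.aemeasurable
  have s4 : ∫⁻ u, ∫⁻ x, g (x * (1 + D u)) ∂unif ∂PU = ∫⁻ u, (∫⁻ y, g y * ker y u) ∂PU := by
    refine lintegral_congr_ae ?_
    filter_upwards [hpos] with u hu
    exact subst g hg (1 + D u) (by linarith)
  have hK : Measurable (fun z : (ℕ → ℝ) × ℝ => g z.2 * ker z.2 z.1) :=
    (hg.comp measurable_snd).mul ((meas_ker hD).comp measurable_swap)
  have s5 : ∫⁻ u, (∫⁻ y, g y * ker y u) ∂PU = ∫⁻ y, (∫⁻ u, g y * ker y u ∂PU) :=
    lintegral_lintegral_swap (f := fun u y => g y * ker y u) hK.aemeasurable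
  rw [s1, s2, s3, s4, s5]
  refine lintegral_congr fun y => ?_
  have hky : Measurable (fun u => ker y u) := (meas_ker hD).comp measurable_prodMk_left
  rw [lintegral_const_mul _ hky]
  congr 1
  unfold f
  by_cases hy : 0 < y
  · rw [if_pos hy, ofReal_integral_eq_lintegral_ofReal]
    · refine lintegral_congr fun u => ?_
      unfold ker
      by_cases h : y - 1 ≤ D u
      · rw [if_pos h, if_pos ⟨hy, by linarith⟩]
      · rw [if_neg h, if_neg (fun h' => h (by linarith [h'.2])), ENNReal.ofReal_zero]
    · refine Integrable.of_bound (C := 1) ?_ ?_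
      · refine (Measurable.ite ?_ ?_ measurable_const).aestronglyMeasurable
        · exact measurableSet_le measurable_const hD
        · exact measurable_const.div (measurable_const.add hD)
      · filter_upwards [hpos] with u hu
        split_ifs
        · rw [Real.norm_eq_abs, abs_of_pos (by positivity), div_le_one (by linarith)]
          linarith
        · simp
    · filter_upwards [hpos] with u hu
      simp only [Pi.zero_apply]
      split_ifs
      · positivity
      · exact le_rfl
  · rw [if_neg hy, ENNReal.ofReal_zero]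
    have : (fun u => ker y u) = fun _ => 0 := by
      funext u
      unfold ker
      rw [if_neg (fun h' => hy h'.1)]
    rw [this, lintegral_zero]

end Pool.Agent.Q214.RH.TDens
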