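import Mathlib
import Pool.Agent.Q214.RH.Stmts

set_option autoImplicit false

namespace Pool.Agent.Q214.RH.TF1

open MeasureTheory ProbabilityTheory Finset Filter Topology
open scoped ENNReal
open Pool.Agent.Q214.RH

theorem main (hG : TaskGood) (hS : TaskShift) (hM : TaskMeas) : Pool.Agent.Q214.RH.TaskF1 := by
  have hD : Measurable D := hM.1
  have hpos : ∀ᵐ u ∂PU, 0 < D u := by
    filter_upwards [hG] with u hu using (hS u hu).2.1
  have hbd : ∀ x : ℝ, ∀ᵐ u ∂PU, 0 ≤ (if x - 1 ≤ D u then 1 / (1 + D u) else 0) ∧
      (if x - 1 ≤ D u then 1 / (1 + D u) else 0) ≤ 1 := by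
    intro x
    filter_upwards [hpos] with u hu
    split_ifs
    · refine ⟨by positivity, ?_⟩
      rw [div_le_one (by linarith)]
      linarith
    · exact ⟨le_rfl, zero_le_one⟩
  have hm : ∀ x : ℝ, Measurable fun u => (if x - 1 ≤ D u then 1 / (1 + D u) else 0) := by
    intro x
    exact Measurable.ite (measurableSet_le measurable_const hD)
      (measurable_const.div (measurable_const.add hD)) measurable_const
  have hint : ∀ x : ℝ, Integrable (fun u => (if x - 1 ≤ D u then 1 / (1 + D u) else 0)) PU := by
    intro x
    refine Integrable.of_bound (hm x).aestronglyMeasurable 1 ?_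
    filter_upwards [hbd x] with u hu
    rw [Real.norm_eq_abs, abs_of_nonneg hu.1]
    exact hu.2
  have h0 : ∀ x, 0 ≤ f x := by
    intro x
    unfold f
    split_ifs
    · apply integral_nonneg_of_ae
      filter_upwards [hbd x] with u hu using hu.1
    · exact le_rfl
  have h1 : ∀ x, f x ≤ 1 := by
    intro x
    unfold f
    split_ifs
    · calc ∫ u, (if x - 1 ≤ D u then 1 / (1 + D u) else 0) ∂PU ≤ ∫ u, (1 : ℝ) ∂PU := by
            apply integral_mono_ae (hint x) (integrable_const _)
            filter_upwards [hbd x] with u hu using hu.2
        _ = 1 := by simp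
    · exact zero_le_one
  have hmono : ∀ x y, 0 < x → x ≤ y → f y ≤ f x := by
    intro x y hx hxy
    have hy : 0 < y := hx.trans_le hxy
    simp only [f, hx, hy, if_true]
    apply integral_mono_ae (hint y) (hint x)
    filter_upwards [hpos, hbd x] with u hu hux
    by_cases h : y - 1 ≤ D u
    · have h' : x - 1 ≤ D u := by linarith
      simp only [h, h', if_true, le_refl]
    · simp only [h, if_false]
      exact hux.1
  have hmeas : Measurable f := by
    have h2 : Measurable (fun x : ℝ => f (Real.exp x)) := by
      apply Antitone.measurable
      intro a b hab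
      exact hmono _ _ (Real.exp_pos a) (Real.exp_le_exp.2 hab)
    have h3 : f = fun x => if 0 < x then f (Real.exp (Real.log x)) else 0 := by
      funext x
      split_ifs with h
      · rw [Real.exp_log h]
      · simp [f, h]
    rw [h3]
    exact Measurable.ite measurableSet_Ioi (h2.comp Real.measurable_log) measurable_const
  refine ⟨hmeas, h0, h1, ?_, hmono, ?_⟩
  · intro x hx
    simp [f, not_lt.2 hx]
  · intro x
    by_cases hx : 0 < x
    · simp only [f, hx, if_true]
      have hset : MeasurableSet {u | x - 1 ≤ D u} := measurableSet_le measurable_const hD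
      calc ∫ u, (if x - 1 ≤ D u then 1 / (1 + D u) else 0) ∂PU
          ≤ ∫ u, Set.indicator {u | x - 1 ≤ D u} (fun _ => (1 : ℝ)) u ∂PU := by
            apply integral_mono_ae (hint x) ((integrable_const _).indicator hset)
            filter_upwards [hbd x] with u hu
            by_cases h : x - 1 ≤ D u
            · have : u ∈ {u | x - 1 ≤ D u} := h
              rw [Set.indicator_of_mem this]
              exact hu.2
            · have : u ∉ {u | x - 1 ≤ D u} := h
              rw [Set.indicator_of_notMem this]
              simp only [h, if_false, le_refl]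
        _ = tl (x - 1) := by
            rw [integral_indicator hset, tl]
            simp
    · simp only [f, hx, if_false]
      exact measureReal_nonneg

end Pool.Agent.Q214.RH.TF1
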