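import Pool.Agent.Q214.RH.Stmts

set_option autoImplicit false

namespace Pool.Agent.Q214.RH.TF2

open MeasureTheory ProbabilityTheory Finset
open scoped ENNReal

theorem main (hG : TaskGood) (hS : TaskShift) (hM : TaskMeas) : Pool.Agent.Q214.RH.TaskF2 := by
  have hpos : ∀ᵐ u ∂PU, 0 < D u := hG.mono fun u hu => (hS u hu).2.1
  have hmeas : Measurable fun u : ℕ → ℝ => 1 / (1 + D u) := by
    exact measurable_const.div (measurable_const.add hM.1)
  have hint : Integrable (fun u : ℕ → ℝ => 1 / (1 + D u)) PU := by
    refine Integrable.mono' (integrable_const (1 : ℝ)) hmeas.aestronglyMeasurable ?_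
    filter_upwards [hpos] with u hu
    rw [Real.norm_eq_abs, abs_of_pos (by positivity), div_le_one (by positivity)]
    linarith
  have hc : 0 < ∫ u, 1 / (1 + D u) ∂PU := by
    rw [integral_pos_iff_support_of_nonneg_ae _ hint]
    · have h1 : PU (Function.support fun u : ℕ → ℝ => 1 / (1 + D u))ᶜ = 0 := by
        have h2 : ∀ᵐ u ∂PU, u ∈ Function.support fun u : ℕ → ℝ => 1 / (1 + D u) := by
          filter_upwards [hpos] with u hu
          have : 0 < 1 / (1 + D u) := by positivity
          exact this.ne'
        exact mem_ae_iff.1 h2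
      by_contra hn
      have h4 : PU (Function.support fun u : ℕ → ℝ => 1 / (1 + D u)) = 0 := by
        simpa using hn
      have h5 : PU Set.univ ≤ 0 := by
        rw [← Set.union_compl_self (Function.support fun u : ℕ → ℝ => 1 / (1 + D u))]
        exact (measure_union_le _ _).trans (by rw [h4, h1, add_zero])
      rw [measure_univ] at h5
      exact absurd h5 (by simp)
    · filter_upwards [hpos] with u hu
      have : 0 < 1 / (1 + D u) := by positivity
      exact this.le
  refine ⟨_, hc, fun x hx0 hx1 => ?_⟩
  unfold f
  rw [if_pos hx0]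
  refine le_of_eq (integral_congr_ae ?_)
  filter_upwards [hpos] with u hu
  rw [if_pos (by linarith)]

end Pool.Agent.Q214.RH.TF2
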