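import Pool.Agent.Q214.RH.Stmts

set_option autoImplicit false

/-! Lipschitz bound for the density of the Dickman variable. -/

namespace Pool.Agent.Q214.RH.TF3

open MeasureTheory ProbabilityTheory Finset
open scoped ENNReal

/-- probabilities of Borel sets in terms of the density -/
lemma meas_eq (hM : TaskMeas) (hD : TaskDens) (s : Set ℝ) (hs : MeasurableSet s) :
    PU (D ⁻¹' s) = ∫⁻ x in s, ENNReal.ofReal (f x) := by
  have h := hD (s.indicator 1) (measurable_one.indicator hs)
  have e1 : ∫⁻ u, s.indicator (1 : ℝ → ℝ≥0∞) (D u) ∂PU = PU (D ⁻¹' s) := by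
    have : (fun u => s.indicator (1 : ℝ → ℝ≥0∞) (D u)) = (D ⁻¹' s).indicator 1 := by
      funext u
      by_cases hu : D u ∈ s
      · rw [Set.indicator_of_mem hu, Set.indicator_of_mem (show u ∈ D ⁻¹' s from hu)]
        rfl
      · rw [Set.indicator_of_notMem hu, Set.indicator_of_notMem (show u ∉ D ⁻¹' s from hu)]
    rw [this, lintegral_indicator_one (hM.1 hs)]
  rw [← e1, h, ← lintegral_indicator hs]
  congr 1
  funext x
  by_cases hx : x ∈ s
  · rw [Set.indicator_of_mem hx, Set.indicator_of_mem hx]
    simp
  · rw [Set.indicator_of_notMem hx, Set.indicator_of_notMem hx]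
    simp

theorem main (hM : TaskMeas) (hD : TaskDens) (h1 : TaskF1) : Pool.Agent.Q214.RH.TaskF3 := by
  obtain ⟨hf1, hf2, hf3, hf4, hf5, hf6⟩ := h1
  have hpos : ∀ᵐ u ∂PU, 0 < D u := by
    rw [ae_iff]
    have e : {u | ¬ 0 < D u} = D ⁻¹' Set.Iic 0 := by
      ext u
      simp
    rw [e, meas_eq hM hD _ measurableSet_Iic]
    rw [setLIntegral_congr_fun measurableSet_Iic
      (g := fun _ => 0) (fun x hx => by simp only [hf4 x hx, ENNReal.ofReal_zero])]
    simp
  intro x h hx hh
  obtain ⟨φ, hφ⟩ : ∃ φ : ℝ → (ℕ → ℝ) → ℝ, ∀ y u, φ y u =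
    if y - 1 ≤ D u then 1 / (1 + D u) else 0 := ⟨_, fun _ _ => rfl⟩
  have hφm : ∀ y, Measurable (φ y) := by
    intro y
    have : φ y = fun u => if y - 1 ≤ D u then 1 / (1 + D u) else 0 := funext (hφ y)
    rw [this]
    exact Measurable.ite (measurableSet_le measurable_const hM.1)
      (measurable_const.div (measurable_const.add hM.1)) measurable_const
  have hφi : ∀ y, Integrable (φ y) PU := by
    intro y
    apply Integrable.of_bound (hφm y).aestronglyMeasurable 1
    filter_upwards [hpos] with u hu
    rw [hφ]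
    split_ifs
    · rw [Real.norm_eq_abs, abs_of_nonneg (by positivity), div_le_one (by positivity)]
      linarith
    · simp
  have hfx : ∀ y, 0 < y → f y = ∫ u, φ y u ∂PU := by
    intro y hy
    unfold f
    rw [if_pos hy]
    simp only [hφ]
  set E : Set (ℕ → ℝ) := D ⁻¹' Set.Ico (x - 1) (x + h - 1) with hE
  have hEm : MeasurableSet E := hM.1 measurableSet_Ico
  have hEh : PU.real E ≤ h := by
    rw [measureReal_def]
    apply ENNReal.toReal_le_of_le_ofReal hh
    rw [hE, meas_eq hM hD _ measurableSet_Ico]
    calc ∫⁻ y in Set.Ico (x - 1) (x + h - 1), ENNReal.ofReal (f y)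
        ≤ ∫⁻ y in Set.Ico (x - 1) (x + h - 1), 1 := by
          apply lintegral_mono
          intro y
          show ENNReal.ofReal (f y) ≤ 1
          rw [← ENNReal.ofReal_one]
          exact ENNReal.ofReal_le_ofReal (hf3 y)
      _ = ENNReal.ofReal h := by
          rw [lintegral_one, Measure.restrict_apply_univ, Real.volume_Ico]
          congr 1
          ring
  rw [hfx x hx, hfx (x + h) (by linarith)]
  have key : ∫ u, φ x u ∂PU ≤ ∫ u, (φ (x + h) u + E.indicator (fun _ => (1 : ℝ)) u) ∂PU := by
    apply integral_mono_ae (hφi x)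
    · exact (hφi _).add ((integrable_const (1 : ℝ)).indicator hEm)
    · filter_upwards [hpos] with u hu
      rw [hφ, hφ]
      by_cases a : x - 1 ≤ D u
      · rw [if_pos a]
        by_cases b : x + h - 1 ≤ D u
        · rw [if_pos b]
          have : 0 ≤ E.indicator (fun _ => (1 : ℝ)) u :=
            Set.indicator_nonneg (fun _ _ => zero_le_one) u
          linarith
        · rw [if_neg b, Set.indicator_of_mem (show u ∈ E from ⟨a, not_le.1 b⟩), zero_add,
            div_le_one (by positivity)]
          linarith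
      · rw [if_neg a, if_neg (by intro hb; exact a (by linarith))]
        have : 0 ≤ E.indicator (fun _ => (1 : ℝ)) u :=
          Set.indicator_nonneg (fun _ _ => zero_le_one) u
        linarith
  rw [integral_add (hφi _) ((integrable_const (1 : ℝ)).indicator hEm),
    integral_indicator_const _ hEm, smul_eq_mul, mul_one] at key
  linarith

end Pool.Agent.Q214.RH.TF3
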