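import Pool.Agent.Q214.RH.Stmts

set_option autoImplicit false

namespace Pool.Agent.Q214.RH.TGood

open MeasureTheory ProbabilityTheory Finset
open scoped ENNReal

theorem lint : ∫⁻ x, ENNReal.ofReal x ∂unif = ENNReal.ofReal (1 / 2) := by
  rw [unif, ← ofReal_integral_eq_lintegral_ofReal]
  · rw [← intervalIntegral.integral_of_le zero_le_one, integral_id]
    norm_num
  · exact continuous_id.integrableOn_Ioc
  · filter_upwards [ae_restrict_mem measurableSet_Ioc] with x hx
    exact hx.1.le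

theorem lint_coord (i : ℕ) : ∫⁻ u, ENNReal.ofReal (u i) ∂PU = ENNReal.ofReal (1 / 2) := by
  rw [← lint, ← Measure.infinitePi_map_eval (fun _ : ℕ => unif) i,
    lintegral_map ENNReal.measurable_ofReal (measurable_pi_apply i)]
  rfl

theorem ae_coord : ∀ᵐ u ∂PU, ∀ i, 0 < u i ∧ u i ≤ 1 := by
  rw [ae_all_iff]
  intro i
  have h1 : ∀ᵐ x ∂unif, 0 < x ∧ x ≤ 1 := by
    unfold unif
    filter_upwards [ae_restrict_mem measurableSet_Ioc] with x hx
    exact hx
  exact (measurePreserving_eval_infinitePi (fun _ : ℕ => unif) i).quasiMeasurePreserving.ae h1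

theorem main : TaskGood := by
  have hind : iIndepFun (fun (i : ℕ) (u : ℕ → ℝ) => ENNReal.ofReal (u i)) PU := by
    unfold PU
    exact iIndepFun_infinitePi (P := fun _ : ℕ => unif) (X := fun _ x => ENNReal.ofReal x)
      (fun _ => ENNReal.measurable_ofReal)
  have hm : ∀ i : ℕ, Measurable fun u : ℕ → ℝ => ENNReal.ofReal (u i) := fun i =>
    ENNReal.measurable_ofReal.comp (measurable_pi_apply i)
  have h1 : ∀ j : ℕ, ∫⁻ u, ∏ i ∈ range (j + 1), ENNReal.ofReal (u i) ∂PU =
      ENNReal.ofReal (1 / 2) ^ (j + 1) := by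
    intro j
    rw [lintegral_prod_eq_prod_lintegral_of_indepFun (range (j + 1))
      (fun (i : ℕ) (u : ℕ → ℝ) => ENNReal.ofReal (u i)) hind hm]
    rw [Finset.prod_congr rfl (fun i _ => lint_coord i), Finset.prod_const, card_range]
  have h2 : ∫⁻ u, ∑' j : ℕ, ∏ i ∈ range (j + 1), ENNReal.ofReal (u i) ∂PU ≠ ⊤ := by
    rw [lintegral_tsum (fun j => (Finset.measurable_prod _ fun i _ => hm i).aemeasurable)]
    simp only [h1]
    have h3 : ∑' j : ℕ, ENNReal.ofReal (1 / 2) ^ (j + 1) ≤ ∑' j : ℕ, ENNReal.ofReal (1 / 2) ^ j := by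
      refine ENNReal.tsum_le_tsum fun j => ?_
      exact pow_le_pow_of_le_one zero_le (by rw [ENNReal.ofReal_le_one]; norm_num)
        (Nat.le_succ j)
    refine ne_top_of_le_ne_top ?_ h3
    rw [ENNReal.tsum_geometric]
    simp only [ne_eq, ENNReal.inv_eq_top, tsub_eq_zero_iff_le, not_le]
    rw [ENNReal.ofReal_lt_one]
    norm_num
  have h4 : ∀ᵐ u ∂PU, ∑' j : ℕ, ∏ i ∈ range (j + 1), ENNReal.ofReal (u i) < ⊤ :=
    ae_lt_top (Measurable.tsum fun j => Finset.measurable_prod _ fun i _ => hm i) h2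
  filter_upwards [ae_coord, h4] with u hu hs
  refine ⟨hu, ?_⟩
  have h5 := ENNReal.summable_toReal hs.ne
  refine h5.congr fun j => ?_
  rw [← ENNReal.ofReal_prod_of_nonneg (fun i _ => (hu i).1.le), ENNReal.toReal_ofReal]
  exact Finset.prod_nonneg fun i _ => (hu i).1.le

end Pool.Agent.Q214.RH.TGood
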