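import Pool.Agent.Q214.RH.Stmts

set_option autoImplicit false

namespace Pool.Agent.Q214.RH.TInv

open MeasureTheory ProbabilityTheory Finset
open scoped ENNReal

theorem main : Pool.Agent.Q214.RH.TaskInv := by
  intro hstep hmeas Ω _ P _ X hX K hK g hg
  set G : ℝ → ℝ≥0∞ := fun a => ∫⁻ u, g (a + tau (K + 1) u) ∂PU with hGdef
  have hG : Measurable G := by
    refine Measurable.lintegral_prod_right' (f := fun z : ℝ × (ℕ → ℝ) => g (z.1 + tau (K + 1) z.2)) ?_
    exact hg.comp (measurable_fst.add ((hmeas.2 (K + 1)).comp measurable_snd))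
  have hA : Measurable (A X K) := by
    unfold A
    exact Finset.measurable_fun_sum _ fun n _ => (hX.meas n).div_const _
  have hKpos : (0 : ℝ) < (K : ℝ) + 1 := by positivity
  have h1 : ∀ ω, ∫⁻ u, g (A X K ω + tau K u) ∂PU =
      ENNReal.ofReal (1 / ((K : ℝ) + 1)) * G (A X K ω + 1 / ((K : ℝ) + 1)) +
      ENNReal.ofReal ((K : ℝ) / ((K : ℝ) + 1)) * G (A X K ω) := by
    intro ω
    have h0 : ∫⁻ u, g (A X K ω + tau K u) ∂PU =
        ENNReal.ofReal (1 / ((K : ℝ) + 1)) *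
          ∫⁻ u, g (A X K ω + (1 / ((K : ℝ) + 1) + tau (K + 1) u)) ∂PU +
        ENNReal.ofReal ((K : ℝ) / ((K : ℝ) + 1)) * ∫⁻ u, g (A X K ω + tau (K + 1) u) ∂PU :=
      hstep K hK (fun t => g (A X K ω + t)) (hg.comp (measurable_const.add measurable_id))
    rw [h0]
    simp only [hGdef, add_assoc]
  have hAs : ∀ ω, A X (K + 1) ω = A X K ω + X K ω / ((K : ℝ) + 1) := by
    intro ω
    unfold A
    rw [sum_range_succ]
  -- independence
  have hind : IndepFun (A X K) (X K) P := by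
    have hY : iIndepFun (fun n ω => X n ω / ((n : ℝ) + 1)) P :=
      hX.indep.comp (fun n x => x / ((n : ℝ) + 1)) (fun n => measurable_id.div_const _)
    have h3 := hY.indepFun_finsetSum_of_notMem (fun n => (hX.meas n).div_const _)
      (s := range K) (i := K) (by simp)
    have h4 : (∑ j ∈ range K, fun ω => X j ω / ((j : ℝ) + 1)) = A X K := by
      ext ω
      simp [A, Finset.sum_apply]
    rw [h4] at h3
    have h5 := h3.comp (φ := id) (ψ := fun y => y * ((K : ℝ) + 1)) measurable_id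
      (measurable_id.mul_const _)
    have h6 : ((fun y => y * ((K : ℝ) + 1)) ∘ fun ω => X K ω / ((K : ℝ) + 1)) = X K := by
      ext ω
      simp only [Function.comp]
      field_simp
    rwa [h6] at h5
  let φ1 : ℝ → ℝ≥0∞ := Set.indicator {1} 1
  let φ0 : ℝ → ℝ≥0∞ := Set.indicator {1}ᶜ 1
  have hφ1 : Measurable φ1 := measurable_one.indicator (measurableSet_singleton 1)
  have hφ0 : Measurable φ0 := measurable_one.indicator (measurableSet_singleton 1).compl
  have h2 : ∀ ω, G (A X (K + 1) ω) = G (A X K ω + 1 / ((K : ℝ) + 1)) * φ1 (X K ω) +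
      G (A X K ω) * φ0 (X K ω) := by
    intro ω
    rw [hAs]
    rcases hX.vals K ω with h | h
    · simp [φ1, φ0, h]
    · simp [φ1, φ0, h]
  have hm : MeasurableSet {ω | X K ω = 1} :=
    (measurableSet_singleton (1 : ℝ)).preimage (hX.meas K)
  have e1 : ∫⁻ ω, φ1 (X K ω) ∂P = ENNReal.ofReal (1 / ((K : ℝ) + 1)) := by
    have : (fun ω => φ1 (X K ω)) = Set.indicator {ω | X K ω = 1} 1 := by
      ext ω
      by_cases h : X K ω = 1 <;> simp [φ1, h]
    rw [this, lintegral_indicator_one hm]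
    exact hX.law K
  have e0 : ∫⁻ ω, φ0 (X K ω) ∂P = ENNReal.ofReal ((K : ℝ) / ((K : ℝ) + 1)) := by
    have : (fun ω => φ0 (X K ω)) = Set.indicator {ω | X K ω = 1}ᶜ 1 := by
      ext ω
      by_cases h : X K ω = 1 <;> simp [φ0, h]
    rw [this, lintegral_indicator_one hm.compl, prob_compl_eq_one_sub hm, hX.law K,
      ← ENNReal.ofReal_one, ← ENNReal.ofReal_sub _ (by positivity)]
    congr 1
    field_simp
    ring
  have hG1 : Measurable fun a : ℝ => G (a + 1 / ((K : ℝ) + 1)) :=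
    hG.comp (measurable_id.add_const _)
  have hm1 : Measurable fun ω => G (A X K ω + 1 / ((K : ℝ) + 1)) := hG1.comp hA
  have hm0 : Measurable fun ω => G (A X K ω) := hG.comp hA
  have hn1 : Measurable fun ω => φ1 (X K ω) := hφ1.comp (hX.meas K)
  have i1 : ∫⁻ ω, G (A X K ω + 1 / ((K : ℝ) + 1)) * φ1 (X K ω) ∂P =
      (∫⁻ ω, G (A X K ω + 1 / ((K : ℝ) + 1)) ∂P) * ∫⁻ ω, φ1 (X K ω) ∂P :=
    lintegral_mul_eq_lintegral_mul_lintegral_of_indepFun (hG1.comp hA) (hφ1.comp (hX.meas K))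
      (hind.comp hG1 hφ1)
  have i0 : ∫⁻ ω, G (A X K ω) * φ0 (X K ω) ∂P =
      (∫⁻ ω, G (A X K ω) ∂P) * ∫⁻ ω, φ0 (X K ω) ∂P :=
    lintegral_mul_eq_lintegral_mul_lintegral_of_indepFun (hG.comp hA) (hφ0.comp (hX.meas K))
      (hind.comp hG hφ0)
  calc ∫⁻ ω, ∫⁻ u, g (A X K ω + tau K u) ∂PU ∂P
      = ∫⁻ ω, (ENNReal.ofReal (1 / ((K : ℝ) + 1)) * G (A X K ω + 1 / ((K : ℝ) + 1)) +
          ENNReal.ofReal ((K : ℝ) / ((K : ℝ) + 1)) * G (A X K ω)) ∂P := by
        simp only [h1]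
    _ = ENNReal.ofReal (1 / ((K : ℝ) + 1)) * (∫⁻ ω, G (A X K ω + 1 / ((K : ℝ) + 1)) ∂P) +
          ENNReal.ofReal ((K : ℝ) / ((K : ℝ) + 1)) * ∫⁻ ω, G (A X K ω) ∂P := by
        rw [lintegral_add_left (hm1.const_mul _), lintegral_const_mul _ hm1,
          lintegral_const_mul _ hm0]
    _ = ∫⁻ ω, (G (A X K ω + 1 / ((K : ℝ) + 1)) * φ1 (X K ω) + G (A X K ω) * φ0 (X K ω)) ∂P := by
        have hmn : Measurable fun ω => G (A X K ω + 1 / ((K : ℝ) + 1)) * φ1 (X K ω) := hm1.mul hn1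
        rw [lintegral_add_left hmn, i1, i0, e1, e0,
          mul_comm, mul_comm (ENNReal.ofReal ((K : ℝ) / ((K : ℝ) + 1)))]
    _ = ∫⁻ ω, G (A X (K + 1) ω) ∂P := by simp only [h2]
    _ = ∫⁻ ω, ∫⁻ u, g (A X (K + 1) ω + tau (K + 1) u) ∂PU ∂P := rfl

end Pool.Agent.Q214.RH.TInv
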