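import Pool.Agent.Q214.RH.Stmts

set_option autoImplicit false

namespace Pool.Agent.Q214.RH.TIter

open MeasureTheory ProbabilityTheory Finset
open scoped ENNReal

theorem step (c C : ℝ) (hc : 0 < c) (hC : 0 < C) (mK mK' y E F e1 : ℝ) (hmK : 0 ≤ mK)
    (hmK' : 0 ≤ mK') (hy2 : 2 ≤ y) (hE : 0 ≤ E) (he1 : 0 ≤ e1) (hEF : E * y ^ 30 ≤ F)
    (h1 : 2 ^ 17 / c ≤ y) (h2 : 2 * C * F + 2 ^ 16 * C * e1 * F ≤ y)
    (h : mK ≤ (mK' * (1 / y ^ 28 + (y / (2 ^ 16 * y ^ 16)) ^ 2 + (y / y ^ 16) ^ 2) + 2 * C * E) /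
      (1 / y ^ 28) + 2 ^ 16 * y ^ 16 * (1 / y ^ 28) * (y + 1) * mK / c +
      2 ^ 16 * y ^ 16 * (C * (e1 * E))) :
    mK ≤ mK' * (1 + 1 / y) + mK * (1 / y) + 1 / y := by
  have hy0 : 0 < y := by linarith
  have hy1 : 1 ≤ y := by linarith
  have hA : (mK' * (1 / y ^ 28 + (y / (2 ^ 16 * y ^ 16)) ^ 2 + (y / y ^ 16) ^ 2) + 2 * C * E) /
      (1 / y ^ 28) = mK' * (1 + (1 / (2 ^ 32 * y ^ 2) + 1 / y ^ 2)) + 2 * C * (E * y ^ 28) := by
    field_simp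
    ring
  have hA1 : 1 / (2 ^ 32 * y ^ 2) + 1 / y ^ 2 ≤ 1 / y := by
    have e1' : 1 / y ^ 2 ≤ 1 / (2 * y) := by
      apply one_div_le_one_div_of_le (by positivity)
      nlinarith
    have e2' : 1 / (2 ^ 32 * y ^ 2) ≤ 1 / (2 * y) := by
      apply one_div_le_one_div_of_le (by positivity)
      nlinarith
    have e3' : 1 / (2 * y) + 1 / (2 * y) = 1 / y := by
      field_simp
      norm_num
    linarith
  have hE28 : E * y ^ 28 ≤ F / y ^ 2 := by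
    rw [le_div_iff₀ (by positivity)]
    calc E * y ^ 28 * y ^ 2 = E * y ^ 30 := by ring
      _ ≤ F := hEF
  have hE16 : E * y ^ 16 ≤ F / y ^ 2 := by
    refine le_trans ?_ hE28
    exact mul_le_mul_of_nonneg_left (pow_le_pow_right₀ hy1 (by norm_num)) hE
  have hB : 2 ^ 16 * y ^ 16 * (1 / y ^ 28) * (y + 1) * mK / c ≤ mK * (1 / y) := by
    have e1' : 2 ^ 16 * y ^ 16 * (1 / y ^ 28) * (y + 1) * mK / c =
        mK * ((2 ^ 16 / c) * (y + 1) / y ^ 12) := by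
      field_simp
    rw [e1']
    refine mul_le_mul_of_nonneg_left ?_ hmK
    rw [div_le_div_iff₀ (by positivity) hy0]
    have e2' : (2 ^ 16 / c) * (y + 1) ≤ y ^ 2 := by
      have e3' : (0 : ℝ) ≤ 2 ^ 16 / c := by positivity
      calc (2 ^ 16 / c) * (y + 1) ≤ (2 ^ 16 / c) * (2 * y) :=
            mul_le_mul_of_nonneg_left (by linarith) e3'
        _ = (2 ^ 17 / c) * y := by ring
        _ ≤ y * y := mul_le_mul_of_nonneg_right h1 hy0.le
        _ = y ^ 2 := by ring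
    calc (2 ^ 16 / c) * (y + 1) * y ≤ y ^ 2 * y := mul_le_mul_of_nonneg_right e2' hy0.le
      _ = y ^ 3 := by ring
      _ ≤ y ^ 12 := pow_le_pow_right₀ hy1 (by norm_num)
      _ = 1 * y ^ 12 := by ring
  have hD : 2 ^ 16 * y ^ 16 * (C * (e1 * E)) ≤ 2 ^ 16 * C * e1 * (F / y ^ 2) := by
    calc 2 ^ 16 * y ^ 16 * (C * (e1 * E)) = 2 ^ 16 * C * e1 * (E * y ^ 16) := by ring
      _ ≤ 2 ^ 16 * C * e1 * (F / y ^ 2) := mul_le_mul_of_nonneg_left hE16 (by positivity)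
  have hG : 2 * C * (E * y ^ 28) ≤ 2 * C * (F / y ^ 2) :=
    mul_le_mul_of_nonneg_left hE28 (by positivity)
  have hsum : 2 * C * (F / y ^ 2) + 2 ^ 16 * C * e1 * (F / y ^ 2) ≤ 1 / y := by
    have e1' : 2 * C * (F / y ^ 2) + 2 ^ 16 * C * e1 * (F / y ^ 2) =
        (2 * C * F + 2 ^ 16 * C * e1 * F) / y ^ 2 := by ring
    rw [e1', div_le_div_iff₀ (by positivity) hy0]
    nlinarith
  have hA2 : mK' * (1 + (1 / (2 ^ 32 * y ^ 2) + 1 / y ^ 2)) ≤ mK' * (1 + 1 / y) :=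
    mul_le_mul_of_nonneg_left (by linarith) hmK'
  rw [hA] at h
  linarith

theorem grow (M ε : ℕ → ℝ) (hM : ∀ j, 0 ≤ M j) (hε : ∀ j, ε j = (1 / 2) ^ j)
    (h : ∀ j, M (j + 1) ≤ (1 + 4 * ε j) * M j) : ∀ j, M j ≤ M 0 * Real.exp 8 := by
  have h1 : ∀ j, M j ≤ M 0 * Real.exp (4 * ∑ i ∈ range j, ε i) := by
    intro j
    induction j with
    | zero => simp
    | succ j ih =>
      have e0 : 0 ≤ ε j := by rw [hε]; positivity
      calc M (j + 1) ≤ (1 + 4 * ε j) * M j := h j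
        _ ≤ Real.exp (4 * ε j) * M j := by
          refine mul_le_mul_of_nonneg_right ?_ (hM j)
          have := Real.add_one_le_exp (4 * ε j)
          linarith
        _ ≤ Real.exp (4 * ε j) * (M 0 * Real.exp (4 * ∑ i ∈ range j, ε i)) :=
          mul_le_mul_of_nonneg_left ih (Real.exp_pos _).le
        _ = M 0 * Real.exp (4 * ∑ i ∈ range (j + 1), ε i) := by
          rw [sum_range_succ, mul_add, Real.exp_add]
          ring
  intro j
  refine (h1 j).trans (mul_le_mul_of_nonneg_left ?_ (hM 0))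
  refine Real.exp_le_exp.2 ?_
  have h2 : ∑ i ∈ range j, ε i ≤ 2 := by
    have e1 : ∑ i ∈ range j, ε i = ∑ i ∈ range j, ((1 : ℝ) / 2) ^ i := sum_congr rfl fun i _ => hε i
    rw [e1]
    have h3 := summable_geometric_two.sum_le_tsum (range j) (fun i _ => by positivity)
    rw [tsum_geometric_two] at h3
    exact h3
  linarith

theorem main : Pool.Agent.Q214.RH.TaskIter := by
  intro c C hc hC m hm h
  obtain ⟨F, hF⟩ : ∃ F : ℝ, F = ((30).factorial : ℝ) := ⟨_, rfl⟩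
  have hF0 : 0 ≤ F := by rw [hF]; positivity
  obtain ⟨a₀, ha₀⟩ : ∃ a₀ : ℕ, (2 ^ 17 / c + (2 * C * F + 2 ^ 16 * C * Real.exp 1 * F)) ≤ 2 ^ a₀ := by
    obtain ⟨n, hn⟩ := exists_nat_ge (2 ^ 17 / c + (2 * C * F + 2 ^ 16 * C * Real.exp 1 * F))
    refine ⟨n, hn.trans ?_⟩
    exact_mod_cast Nat.lt_two_pow_self.le
  have hpos1 : 0 ≤ 2 ^ 17 / c := by positivity
  have hpos2 : 0 ≤ 2 * C * F + 2 ^ 16 * C * Real.exp 1 * F := by positivity
  have hstep : ∀ a : ℕ, a₀ + 3 ≤ a → m (2 ^ (16 * (a + 1))) ≤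
      m (2 ^ (16 * a)) * (1 + 1 / 2 ^ a) + m (2 ^ (16 * (a + 1))) * (1 / 2 ^ a) + 1 / 2 ^ a := by
    intro a ha
    have hya : (2 : ℝ) ^ a₀ ≤ 2 ^ a := pow_le_pow_right₀ (by norm_num) (by omega)
    have hy2 : (2 : ℝ) ≤ 2 ^ a := by
      calc (2 : ℝ) = 2 ^ 1 := by norm_num
        _ ≤ 2 ^ a := pow_le_pow_right₀ (by norm_num) (by omega)
    have hy0 : (0 : ℝ) < 2 ^ a := by positivity
    have hl : (0 : ℝ) < 1 / (2 ^ a) ^ 28 := by positivity
    have hk := h (2 ^ (16 * a)) (2 ^ (16 * (a + 1))) Nat.one_le_two_pow Nat.one_le_two_pow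
      (1 / (2 ^ a) ^ 28) (2 ^ a) hl (by linarith)
    have c1 : ((2 ^ (16 * a) : ℕ) : ℝ) = (2 ^ a) ^ 16 := by
      push_cast
      rw [← pow_mul, mul_comm]
    have c2 : ((2 ^ (16 * (a + 1)) : ℕ) : ℝ) = 2 ^ 16 * (2 ^ a) ^ 16 := by
      push_cast
      rw [← pow_mul, ← pow_add]
      congr 1
      ring
    have hexp : Real.exp (1 - 2 ^ a) = Real.exp 1 * Real.exp (-2 ^ a) := by
      rw [← Real.exp_add]
      congr 1
    rw [c1, c2, hexp] at hk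
    refine step c C hc hC (m (2 ^ (16 * (a + 1)))) (m (2 ^ (16 * a))) (2 ^ a) (Real.exp (-2 ^ a)) F
      (Real.exp 1) (hm _) (hm _) hy2 (Real.exp_pos _).le (Real.exp_pos _).le ?_ (by linarith)
      (by linarith) hk
    have h5 := Real.pow_div_factorial_le_exp ((2 : ℝ) ^ a) hy0.le 30
    rw [← hF] at h5
    have hFp : 0 < F := by rw [hF]; positivity
    rw [div_le_iff₀ hFp] at h5
    calc Real.exp (-2 ^ a) * (2 ^ a) ^ 30 ≤ Real.exp (-2 ^ a) * (Real.exp (2 ^ a) * F) :=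
          mul_le_mul_of_nonneg_left h5 (Real.exp_pos _).le
      _ = F := by
          rw [← mul_assoc, ← Real.exp_add]
          simp
  have hgrow := grow (fun j => m (2 ^ (16 * (a₀ + 3 + j))) + 1) (fun j => (1 / 2) ^ j)
    (fun j => by have := hm (2 ^ (16 * (a₀ + 3 + j))); positivity) (fun j => rfl) (by
      intro j
      have h1 := hstep (a₀ + 3 + j) (by omega)
      have e1 : (1 : ℝ) / 2 ^ (a₀ + 3 + j) ≤ (1 / 8) * (1 / 2) ^ j := by
        rw [pow_add, pow_add, one_div_pow, div_mul_div_comm, one_mul]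
        apply one_div_le_one_div_of_le (by positivity)
        have : (1 : ℝ) ≤ 2 ^ a₀ := one_le_pow₀ (by norm_num)
        have h2j : (0 : ℝ) < 2 ^ j := by positivity
        nlinarith
      have e2 : (0 : ℝ) < 1 / 2 ^ (a₀ + 3 + j) := by positivity
      have e3 : (1 / 2 : ℝ) ^ j ≤ 1 := pow_le_one₀ (by norm_num) (by norm_num)
      have e5 : (0 : ℝ) < (1 / 2) ^ j := by positivity
      have e4 : a₀ + 3 + (j + 1) = a₀ + 3 + j + 1 := by ring
      rw [e4]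
      obtain ⟨ε, hε⟩ : ∃ ε : ℝ, ε = 1 / 2 ^ (a₀ + 3 + j) := ⟨_, rfl⟩
      rw [← hε] at h1 e1 e2
      have m1 := hm (2 ^ (16 * (a₀ + 3 + j)))
      have m2 := hm (2 ^ (16 * (a₀ + 3 + j + 1)))
      obtain ⟨x, hx⟩ : ∃ x : ℝ, x = m (2 ^ (16 * (a₀ + 3 + j))) := ⟨_, rfl⟩
      obtain ⟨z, hz⟩ : ∃ z : ℝ, z = m (2 ^ (16 * (a₀ + 3 + j + 1))) := ⟨_, rfl⟩
      rw [← hx] at h1 m1 ⊢
      rw [← hz] at h1 m2 ⊢
      have e6 : (1 - ε) * (z + 1) ≤ (1 + ε) * (x + 1) := by nlinarith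
      have e7 : ε ≤ 1 / 8 := by linarith
      have e8 : (1 + ε) ≤ (1 + 4 * ε) * (1 - ε) := by nlinarith
      have e9 : (1 - ε) * (z + 1) ≤ (1 - ε) * ((1 + 4 * ε) * (x + 1)) := by
        calc (1 - ε) * (z + 1) ≤ (1 + ε) * (x + 1) := e6
          _ ≤ ((1 + 4 * ε) * (1 - ε)) * (x + 1) := mul_le_mul_of_nonneg_right e8 (by linarith)
          _ = (1 - ε) * ((1 + 4 * ε) * (x + 1)) := by ring
      have e10 := le_of_mul_le_mul_left e9 (by linarith)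
      refine e10.trans (mul_le_mul_of_nonneg_right ?_ (by linarith))
      linarith)
  refine ⟨(m (2 ^ (16 * (a₀ + 3 + 0))) + 1) * Real.exp 8, fun j => 2 ^ (16 * (a₀ + 3 + j)),
    fun j => Nat.one_le_two_pow, ?_, fun j => ?_⟩
  · refine Filter.tendsto_atTop_mono (fun j => ?_) Filter.tendsto_id
    show j ≤ 2 ^ (16 * (a₀ + 3 + j))
    calc j ≤ 16 * (a₀ + 3 + j) := by omega
      _ ≤ 2 ^ (16 * (a₀ + 3 + j)) := Nat.lt_two_pow_self.le
  · have := hgrow j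
    have h0 := this
    linarith

end Pool.Agent.Q214.RH.TIter
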