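import Pool.Agent.Q214.RH.Stmts

set_option autoImplicit false

namespace Pool.Agent.Q214.RH.TLaw

open MeasureTheory ProbabilityTheory Finset Filter Topology
open scoped ENNReal NNReal

theorem main : Pool.Agent.Q214.RH.TaskLaw := by
  intro hGood hMeas hPath hSum Ω _ P _ X hX hinv K hK g hg
  have hx0 : ∀ n ω, 0 ≤ X n ω / ((n : ℝ) + 1) := by
    intro n ω
    have : 0 ≤ X n ω := by rcases hX.vals n ω with h | h <;> rw [h] <;> norm_num
    positivity
  have hSe : S X = fun ω => (∑' n, ENNReal.ofReal (X n ω / ((n : ℝ) + 1))).toReal := by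
    funext ω
    rw [ENNReal.tsum_toReal_eq (fun n => ENNReal.ofReal_ne_top)]
    unfold S
    congr 1
    funext n
    rw [ENNReal.toReal_ofReal (hx0 n ω)]
  have hS : Measurable (S X) := by
    rw [hSe]
    exact (Measurable.tsum fun n =>
      ENNReal.measurable_ofReal.comp ((hX.meas n).div_const _)).ennreal_toReal
  have hA : ∀ k, Measurable (A X k) := fun k =>
    Finset.measurable_sum _ (fun n _ => (hX.meas n).div_const _)
  have htau := hMeas.2
  have hF : ∀ k, Measurable fun z : Ω × (ℕ → ℝ) => A X k z.1 + tau k z.2 := fun k =>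
    ((hA k).comp measurable_fst).add ((htau k).comp measurable_snd)
  set ν : ℕ → Measure ℝ := fun k => (P.prod PU).map (fun z => A X k z.1 + tau k z.2) with hνd
  have hν : ∀ (k : ℕ) (g : ℝ → ℝ≥0∞), Measurable g →
      ∫⁻ x, g x ∂(ν k) = ∫⁻ ω, ∫⁻ u, g (A X k ω + tau k u) ∂PU ∂P := by
    intro k g hg
    rw [hνd]
    simp only
    rw [lintegral_map hg (hF k)]
    exact lintegral_prod (fun z => g (A X k z.1 + tau k z.2)) (hg.comp (hF k)).aemeasurable
  have hconst : ∀ k : ℕ, 1 ≤ k → ∀ g : ℝ → ℝ≥0∞, Measurable g →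
      ∫⁻ x, g x ∂(ν k) = ∫⁻ x, g x ∂(ν 1) := by
    intro k hk
    induction k, hk using Nat.le_induction with
    | base => intro g _; rfl
    | succ n hn ih =>
      intro g hg
      rw [hν _ g hg, ← hinv n hn g hg, ← hν n g hg]
      exact ih g hg
  have hlim : ∀ h : BoundedContinuousFunction ℝ ℝ≥0,
      Tendsto (fun k => ∫⁻ x, (h x : ℝ≥0∞) ∂(ν k)) atTop
        (𝓝 (∫⁻ x, (h x : ℝ≥0∞) ∂(P.map (S X)))) := by
    intro h
    have hhm : Measurable fun x => (h x : ℝ≥0∞) :=
      (ENNReal.continuous_coe.comp h.continuous).measurable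
    have e1 : ∀ k, ∫⁻ x, (h x : ℝ≥0∞) ∂(ν k) =
        ∫⁻ z, (h (A X k z.1 + tau k z.2) : ℝ≥0∞) ∂(P.prod PU) := by
      intro k
      rw [hνd]
      simp only
      rw [lintegral_map hhm (hF k)]
    have e2 : ∫⁻ x, (h x : ℝ≥0∞) ∂(P.map (S X)) =
        ∫⁻ z, (h (S X z.1) : ℝ≥0∞) ∂(P.prod PU) := by
      rw [lintegral_map hhm hS, lintegral_prod
        (fun z : Ω × (ℕ → ℝ) => (h (S X z.1) : ℝ≥0∞))
        (hhm.comp (hS.comp measurable_fst)).aemeasurable]
      simp
    simp_rw [e1]
    rw [e2]
    apply tendsto_lintegral_of_dominated_convergence (fun _ => ((nndist h 0 : ℝ≥0) : ℝ≥0∞))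
    · intro k
      exact hhm.comp (hF k)
    · intro k
      apply ae_of_all
      intro z
      have := BoundedContinuousFunction.NNReal.upper_bound h (A X k z.1 + tau k z.2)
      exact ENNReal.coe_le_coe.2 this
    · rw [lintegral_const]
      simp
    · have a1 : ∀ᵐ z ∂(P.prod PU), Summable fun n => X n z.1 / ((n : ℝ) + 1) :=
        Measure.quasiMeasurePreserving_fst.ae (hSum Ω P X hX)
      have a2 : ∀ᵐ z ∂(P.prod PU), Good z.2 := Measure.quasiMeasurePreserving_snd.ae hGood
      filter_upwards [a1, a2] with z h1 h2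
      have c1 : Tendsto (fun k => A X k z.1) atTop (𝓝 (S X z.1)) := h1.hasSum.tendsto_sum_nat
      have c2 : Tendsto (fun k => tau k z.2) atTop (𝓝 0) := by
        have c3 : Tendsto (fun k : ℕ => D z.2 / (k : ℝ)) atTop (𝓝 0) :=
          tendsto_const_div_atTop_nhds_zero_nat _
        apply tendsto_of_tendsto_of_tendsto_of_le_of_le' tendsto_const_nhds c3
        · exact Eventually.of_forall fun k => tsum_nonneg fun j => by positivity
        · filter_upwards [eventually_ge_atTop 1] with k hk
          exact (hPath z.2 h2 k hk).2.2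
      have c4 := c1.add c2
      rw [add_zero] at c4
      exact ((ENNReal.continuous_coe.comp h.continuous).tendsto _).comp c4
  have heq : ν 1 = P.map (S X) := by
    have : IsFiniteMeasure (ν 1) := by
      rw [hνd]
      infer_instance
    have : IsFiniteMeasure (P.map (S X)) := inferInstance
    apply ext_of_forall_lintegral_eq_of_IsFiniteMeasure
    intro h
    have hhm : Measurable fun x => (h x : ℝ≥0∞) :=
      (ENNReal.continuous_coe.comp h.continuous).measurable
    have h2 : Tendsto (fun k => ∫⁻ x, (h x : ℝ≥0∞) ∂(ν k)) atTop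
        (𝓝 (∫⁻ x, (h x : ℝ≥0∞) ∂(ν 1))) :=
      tendsto_const_nhds.congr' (by
        filter_upwards [eventually_ge_atTop 1] with k hk
        exact (hconst k hk _ hhm).symm)
    exact tendsto_nhds_unique h2 (hlim h)
  rw [← hν K g hg, hconst K hK g hg, heq, lintegral_map hg hS]

end Pool.Agent.Q214.RH.TLaw
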