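import Pool.Agent.Q214.RH.Stmts

set_option autoImplicit false

namespace Pool.Agent.Q214.RH.TLow

open MeasureTheory ProbabilityTheory Finset
open scoped ENNReal

theorem tl_nonneg (L : ℝ) : 0 ≤ tl L := measureReal_nonneg

theorem tl_anti {L L' : ℝ} (h : L ≤ L') : tl L' ≤ tl L :=
  measureReal_mono (fun _ hu => h.trans hu)

theorem main (h1 : TaskF1) (h3 : TaskF3) : Pool.Agent.Q214.RH.TaskLow := by
  intro _ _ c hc Ω _ P _ X hX K hK M hconc s l h L hh hhl hL
  obtain ⟨fm, f0, f1, fneg, fanti, ftl⟩ := h1
  have hKR : (1 : ℝ) ≤ K := by exact_mod_cast hK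
  have hK0 : (0 : ℝ) < K := by linarith
  have hl0 : 0 ≤ l := hh.trans hhl
  have hA : Measurable (A X K) := by
    unfold A
    exact Finset.measurable_sum _ fun n _ => (hX.meas n).div_const _
  let E : Set Ω := {ω | s - L / K ≤ A X K ω ∧ A X K ω < s}
  have hE : MeasurableSet E :=
    (measurableSet_le measurable_const hA).inter (measurableSet_lt hA measurable_const)
  have hint : ∀ t : ℝ, Integrable (fun ω => (K : ℝ) * f (K * (t - A X K ω))) P := by
    intro t
    refine Integrable.of_bound (C := K) ?_ (Filter.Eventually.of_forall fun ω => ?_)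
    · exact ((fm.comp ((measurable_const.sub hA).const_mul _)).const_mul _).aestronglyMeasurable
    · rw [Real.norm_eq_abs, abs_of_nonneg (mul_nonneg hK0.le (f0 _))]
      have := f1 (K * (t - A X K ω))
      nlinarith
  have hind : Integrable (E.indicator (fun _ => (1 : ℝ))) P :=
    (integrable_const (1 : ℝ)).indicator hE
  have hpt : ∀ ω, (K : ℝ) * f (K * (s - A X K ω)) ≤
      K * f (K * (s + h - A X K ω)) + K * (K * l) * E.indicator (fun _ => (1 : ℝ)) ω +
        K * tl (L - 1) := by
    intro ω
    have hi0 : 0 ≤ E.indicator (fun _ => (1 : ℝ)) ω := Set.indicator_nonneg (fun _ _ => zero_le_one) _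
    have ht := tl_nonneg (L - 1)
    have hf' := f0 (K * (s + h - A X K ω))
    have key : f (K * (s - A X K ω)) ≤ f (K * (s + h - A X K ω)) +
        K * l * E.indicator (fun _ => (1 : ℝ)) ω + tl (L - 1) := by
      rcases le_or_gt (K * (s - A X K ω)) 0 with hx | hx
      · rw [fneg _ hx]
        positivity
      · rcases le_or_gt (K * (s - A X K ω)) L with hx2 | hx2
        · have hmem : ω ∈ E := by
            have hp : 0 < s - A X K ω := by
              by_contra hcon
              have := mul_nonpos_of_nonneg_of_nonpos hK0.le (not_lt.mp hcon)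
              linarith
            refine ⟨?_, by linarith⟩
            have : s - A X K ω ≤ L / K := by
              rw [le_div_iff₀ hK0]
              linarith
            linarith
          rw [Set.indicator_of_mem hmem]
          have h4 := h3 (K * (s - A X K ω)) (K * h) hx (by positivity)
          have h5 : K * (s - A X K ω) + K * h = K * (s + h - A X K ω) := by ring
          rw [h5] at h4
          have h6 : (K : ℝ) * h ≤ K * l := mul_le_mul_of_nonneg_left hhl hK0.le
          linarith
        · have h4 := ftl (K * (s - A X K ω))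
          have h5 : tl (K * (s - A X K ω) - 1) ≤ tl (L - 1) := tl_anti (by linarith)
          have h6 : 0 ≤ K * l * E.indicator (fun _ => (1 : ℝ)) ω := by positivity
          linarith
    calc (K : ℝ) * f (K * (s - A X K ω)) ≤ K * (f (K * (s + h - A X K ω)) +
        K * l * E.indicator (fun _ => (1 : ℝ)) ω + tl (L - 1)) :=
          mul_le_mul_of_nonneg_left key hK0.le
      _ = _ := by ring
  have hi1 := hint (s + h)
  have hi2 : Integrable (fun ω => (K : ℝ) * (K * l) * E.indicator (fun _ => (1 : ℝ)) ω) P :=
    hind.const_mul _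
  have hi3 : Integrable (fun _ : Ω => (K : ℝ) * tl (L - 1)) P := integrable_const _
  have hI := integral_mono (hint s) ((hi1.add hi2).add hi3) hpt
  have e1 : ∫ ω, ((fun ω => (K : ℝ) * f (K * (s + h - A X K ω))) + (fun ω => (K : ℝ) * (K * l) *
      E.indicator (fun _ => (1 : ℝ)) ω) + fun _ : Ω => (K : ℝ) * tl (L - 1)) ω ∂P =
      q P X K (s + h) + K * (K * l) * P.real E + K * tl (L - 1) := by
    have e2 : ∫ ω, (K : ℝ) * (K * l) * E.indicator (fun _ => (1 : ℝ)) ω ∂P =
        K * (K * l) * P.real E := by
      rw [integral_const_mul, integral_indicator hE]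
      simp
    have e3 : ∫ _ω : Ω, (K : ℝ) * tl (L - 1) ∂P = K * tl (L - 1) := by simp
    rw [integral_add' (hi1.add hi2) hi3, integral_add' hi1 hi2, e2, e3]
    rfl
  rw [e1] at hI
  have hE2 := hconc s L (by linarith)
  have h7 : (K : ℝ) * (K * l) * P.real E ≤ K * l * (L + 1) * M / c := by
    calc (K : ℝ) * (K * l) * P.real E ≤ K * (K * l) * ((L + 1) * M / (c * K)) :=
          mul_le_mul_of_nonneg_left hE2 (by positivity)
      _ = _ := by field_simp
  have h8 : q P X K s = ∫ ω, (K : ℝ) * f (K * (s - A X K ω)) ∂P := rfl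
  rw [h8]
  linarith

end Pool.Agent.Q214.RH.TLow
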