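import Pool.Agent.Q214.RH.Stmts

set_option autoImplicit false

namespace Pool.Agent.Q214.RH.TMeas

open MeasureTheory ProbabilityTheory Finset
open scoped ENNReal

private theorem nnMeas (K : ℕ) : ∀ j : ℕ, Measurable (fun u : ℕ → ℝ => nn K u j)
  | 0 => measurable_const
  | j + 1 => by
    have h : Measurable (fun u : ℕ → ℝ => (nn K u j : ℝ) / u j) :=
      (measurable_from_nat.comp (nnMeas K j)).div (measurable_pi_apply j)
    exact Nat.measurable_ceil.comp h

theorem main : Pool.Agent.Q214.RH.TaskMeas := by
  refine ⟨?_, fun K => ?_⟩
  · unfold D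
    refine Measurable.tsum fun j => ?_
    exact Finset.measurable_prod _ fun i _ => measurable_pi_apply i
  · unfold tau
    refine Measurable.tsum fun j => ?_
    exact measurable_const.div (measurable_from_nat.comp (nnMeas K (j + 1)))

end Pool.Agent.Q214.RH.TMeas
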