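import Pool.Agent.Q214.RH.Stmts

set_option autoImplicit false

namespace Pool.Agent.Q214.RH.TQ

open MeasureTheory ProbabilityTheory Finset
open scoped ENNReal

theorem meas_A {Ω : Type} [MeasurableSpace Ω] {P : Measure Ω} {X : ℕ → Ω → ℝ} (hR : Rec P X)
    (K : ℕ) : Measurable (A X K) := by
  unfold A
  refine Finset.measurable_sum _ fun n _ => ?_
  exact (hR.meas n).div_const _

theorem main : Pool.Agent.Q214.RH.TaskQ := by
  intro hDens hF1 hMeas Ω _ P _ X hR K hK
  obtain ⟨hfm, hf0, hf1, -, -, -⟩ := hF1
  obtain ⟨hD, -⟩ := hMeas
  have hA := meas_A hR K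
  have hK0 : (0 : ℝ) < K := by exact_mod_cast hK
  have hF : Measurable (fun p : ℝ × Ω => (K : ℝ) * f (K * (p.1 - A X K p.2))) := by
    refine measurable_const.mul (hfm.comp ?_)
    exact measurable_const.mul (measurable_fst.sub (hA.comp measurable_snd))
  have hnn : ∀ s ω, 0 ≤ (K : ℝ) * f (K * (s - A X K ω)) := fun s ω =>
    mul_nonneg hK0.le (hf0 _)
  have hle : ∀ s ω, (K : ℝ) * f (K * (s - A X K ω)) ≤ K := fun s ω => by
    have := mul_le_mul_of_nonneg_left (hf1 (K * (s - A X K ω))) hK0.le
    linarith
  refine ⟨?_, ?_, ?_, ?_⟩
  · have h0 : StronglyMeasurable (Function.uncurry fun (s : ℝ) (ω : Ω) =>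
        (K : ℝ) * f (K * (s - A X K ω))) := hF.stronglyMeasurable
    exact (h0.integral_prod_right (ν := P)).measurable
  · intro s
    exact integral_nonneg fun ω => hnn s ω
  · intro s
    calc q P X K s ≤ ∫ ω, (K : ℝ) ∂P := by
          refine integral_mono_of_nonneg (Filter.Eventually.of_forall fun ω => hnn s ω)
            (integrable_const _) (Filter.Eventually.of_forall fun ω => hle s ω)
      _ = K := by simp
  · intro a b hab
    have hE : MeasurableSet {z : Ω × (ℕ → ℝ) | a ≤ A X K z.1 + D z.2 / K ∧
        A X K z.1 + D z.2 / K ≤ b} := by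
      have hm : Measurable fun z : Ω × (ℕ → ℝ) => A X K z.1 + D z.2 / K :=
        (hA.comp measurable_fst).add ((hD.comp measurable_snd).div_const _)
      exact (measurableSet_le measurable_const hm).inter (measurableSet_le hm measurable_const)
    -- the section
    have hsec : ∀ ω, (PU (Prod.mk ω ⁻¹' {z : Ω × (ℕ → ℝ) | a ≤ A X K z.1 + D z.2 / K ∧
        A X K z.1 + D z.2 / K ≤ b})).toReal = ∫ s in a..b, (K : ℝ) * f (K * (s - A X K ω)) := by
      intro ω
      set α := A X K ω with hα
      have hset : (Prod.mk ω ⁻¹' {z : Ω × (ℕ → ℝ) | a ≤ A X K z.1 + D z.2 / K ∧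
          A X K z.1 + D z.2 / K ≤ b}) = D ⁻¹' (Set.Icc (K * a - K * α) (K * b - K * α)) := by
        ext u
        simp only [Set.mem_preimage, Set.mem_ofPred_eq, Set.mem_Icc]
        rw [← hα]
        constructor
        · rintro ⟨h1, h2⟩
          constructor
          · have : (a - α) ≤ D u / K := by linarith
            rw [le_div_iff₀ hK0] at this
            linarith
          · have : D u / K ≤ b - α := by linarith
            rw [div_le_iff₀ hK0] at this
            linarith
        · rintro ⟨h1, h2⟩
          constructor
          · have : (a - α) ≤ D u / K := by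
              rw [le_div_iff₀ hK0]
              linarith
            linarith
          · have : D u / K ≤ b - α := by
              rw [div_le_iff₀ hK0]
              linarith
            linarith
      rw [hset]
      have hcd : K * a - K * α ≤ K * b - K * α := by
        have := mul_le_mul_of_nonneg_left hab hK0.le
        linarith
      have h1 := hDens ((Set.Icc (K * a - K * α) (K * b - K * α)).indicator 1)
        (measurable_one.indicator measurableSet_Icc)
      have h2 : ∫⁻ u, (Set.Icc (K * a - K * α) (K * b - K * α)).indicator (1 : ℝ → ℝ≥0∞) (D u) ∂PU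
          = PU (D ⁻¹' (Set.Icc (K * a - K * α) (K * b - K * α))) := by
        have : (fun u => (Set.Icc (K * a - K * α) (K * b - K * α)).indicator (1 : ℝ → ℝ≥0∞) (D u))
            = (D ⁻¹' (Set.Icc (K * a - K * α) (K * b - K * α))).indicator 1 := by
          funext u
          simp only [Set.indicator, Set.mem_preimage, Pi.one_apply]
        rw [this, lintegral_indicator_one (hD measurableSet_Icc)]
      have h3 : ∫⁻ x, (Set.Icc (K * a - K * α) (K * b - K * α)).indicator (1 : ℝ → ℝ≥0∞) x *
          ENNReal.ofReal (f x) = ∫⁻ x in Set.Icc (K * a - K * α) (K * b - K * α),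
            ENNReal.ofReal (f x) := by
        rw [← lintegral_indicator measurableSet_Icc]
        refine lintegral_congr fun x => ?_
        by_cases hx : x ∈ Set.Icc (K * a - K * α) (K * b - K * α)
        · simp [Set.indicator_of_mem hx]
        · simp [Set.indicator_of_notMem hx]
      have hint : Integrable f (volume.restrict (Set.Icc (K * a - K * α) (K * b - K * α))) := by
        refine Integrable.of_bound hfm.aestronglyMeasurable 1
          (Filter.Eventually.of_forall fun x => ?_)
        rw [Real.norm_eq_abs, abs_of_nonneg (hf0 x)]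
        exact hf1 x
      have h4 : ∫⁻ x in Set.Icc (K * a - K * α) (K * b - K * α), ENNReal.ofReal (f x) =
          ENNReal.ofReal (∫ x in Set.Icc (K * a - K * α) (K * b - K * α), f x) :=
        (ofReal_integral_eq_lintegral_ofReal hint (Filter.Eventually.of_forall hf0)).symm
      rw [← h2, h1, h3, h4, ENNReal.toReal_ofReal (integral_nonneg hf0),
        integral_Icc_eq_integral_Ioc, ← intervalIntegral.integral_of_le hcd]
      rw [intervalIntegral.integral_const_mul]
      have h5 := intervalIntegral.mul_integral_comp_mul_sub (f := f) (a := a) (b := b)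
        (c := (K : ℝ)) (d := K * α)
      rw [← h5]
      congr 1
      refine intervalIntegral.integral_congr fun s _ => ?_
      show f (K * s - K * α) = f (K * (s - α))
      congr 1
      ring
    have hEv : Ev P X K a b = ∫ ω, (∫ s in a..b, (K : ℝ) * f (K * (s - A X K ω))) ∂P := by
      unfold Ev
      rw [measureReal_def, Measure.prod_apply hE, ← integral_toReal
        (measurable_measure_prodMk_left hE).aemeasurable
        (Filter.Eventually.of_forall fun ω => measure_lt_top _ _)]
      exact integral_congr_ae (Filter.Eventually.of_forall hsec)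
    rw [hEv]
    simp only [intervalIntegral.integral_of_le hab]
    rw [integral_integral_swap]
    · rfl
    · have hF' : Measurable (Function.uncurry fun (ω : Ω) (s : ℝ) =>
          (K : ℝ) * f (K * (s - A X K ω))) := hF.comp measurable_swap
      refine Integrable.of_bound hF'.aestronglyMeasurable K
        (Filter.Eventually.of_forall fun p => ?_)
      show ‖(K : ℝ) * f (K * (p.2 - A X K p.1))‖ ≤ K
      rw [Real.norm_eq_abs, abs_of_nonneg (hnn _ _)]
      exact hle _ _

end Pool.Agent.Q214.RH.TQ
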