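import Pool.Agent.Q214.RH.Stmts

set_option autoImplicit false

namespace Pool.Agent.Q214.RH.TShift

open Finset

theorem main : Pool.Agent.Q214.RH.TaskShift := by
  intro u hu
  obtain ⟨h1, h2⟩ := hu
  have h0 : u 0 ≠ 0 := (h1 0).1.ne'
  have he : ∀ j : ℕ, ∏ i ∈ range (j + 1 + 1), u i = (∏ i ∈ range (j + 1), shift u i) * u 0 := by
    intro j
    rw [Finset.prod_range_succ']
    rfl
  have hs1 : Summable fun j : ℕ => ∏ i ∈ range (j + 1 + 1), u i :=
    (summable_nat_add_iff (f := fun j : ℕ => ∏ i ∈ range (j + 1), u i) 1).2 h2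
  have hs : Summable fun j : ℕ => ∏ i ∈ range (j + 1), shift u i := by
    have h3 : Summable fun j : ℕ => (∏ i ∈ range (j + 1), shift u i) * u 0 := by
      refine hs1.congr ?_
      intro j
      exact (he j)
    exact (summable_mul_right_iff h0).1 h3
  have hD : D u = u 0 * (1 + D (shift u)) := by
    unfold D
    rw [h2.tsum_eq_zero_add]
    have h4 : (∑' j : ℕ, ∏ i ∈ range (j + 1 + 1), u i) =
        (∑' j : ℕ, ∏ i ∈ range (j + 1), shift u i) * u 0 := by
      rw [← tsum_mul_right]
      exact tsum_congr he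
    rw [h4]
    simp only [zero_add, Finset.prod_range_one]
    ring
  have hn : 0 ≤ D (shift u) := by
    unfold D
    exact tsum_nonneg fun j => Finset.prod_nonneg fun i _ => (h1 (i + 1)).1.le
  refine ⟨⟨fun i => h1 (i + 1), hs⟩, ?_, hD⟩
  rw [hD]
  exact mul_pos (h1 0).1 (by linarith)

end Pool.Agent.Q214.RH.TShift
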