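import Pool.Agent.Q214.RH.Stmts

/-! MP_5a22fd_pr, blueprint of helper214: the first coordinate and the rest are independent. -/

set_option autoImplicit false

namespace Pool.Agent.Q214.RH.TSplit

open MeasureTheory ProbabilityTheory Finset
open scoped ENNReal

/-- put a coordinate in front -/
def Phi (z : ℝ × (ℕ → ℝ)) : ℕ → ℝ
  | 0 => z.1
  | n + 1 => z.2 n

theorem measurable_Phi : Measurable Phi := by
  rw [measurable_pi_iff]
  intro i
  cases i with
  | zero => exact measurable_fst
  | succ n => exact (measurable_pi_apply n).comp measurable_snd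

theorem map_Phi : (unif.prod PU).map Phi = PU := by
  unfold PU
  apply Measure.eq_infinitePi
  intro s t ht
  rw [Measure.map_apply measurable_Phi (MeasurableSet.pi s.countable_toSet fun i _ => ht i)]
  set s' : Finset ℕ := (s.erase 0).preimage Nat.succ Nat.succ_injective.injOn with hs'
  have hmem : ∀ n, n ∈ s' ↔ n + 1 ∈ s := by
    intro n
    rw [hs', mem_preimage, mem_erase]
    simp
  have hprod : ∏ i ∈ s', unif (t (i + 1)) = ∏ i ∈ s.erase 0, unif (t i) := by
    refine Finset.prod_preimage Nat.succ (s.erase 0) Nat.succ_injective.injOn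
      (fun i => unif (t i)) ?_
    intro x hx hr
    exfalso
    apply hr
    exact ⟨x - 1, by have := (mem_erase.1 hx).1; simp only [Nat.succ_eq_add_one]; omega⟩
  have hpi : Measure.infinitePi (fun _ : ℕ => unif) (Set.pi s' fun n => t (n + 1)) =
      ∏ i ∈ s', unif (t (i + 1)) :=
    Measure.infinitePi_pi (μ := fun _ : ℕ => unif) fun i _ => ht (i + 1)
  by_cases h0 : 0 ∈ s
  · have hpre : Phi ⁻¹' (Set.pi s t) = t 0 ×ˢ (Set.pi s' fun n => t (n + 1)) := by
      ext z
      simp only [Set.mem_preimage, Set.mem_pi, Set.mem_prod, Finset.mem_coe]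
      constructor
      · intro h
        exact ⟨h 0 h0, fun n hn => h (n + 1) ((hmem n).1 hn)⟩
      · rintro ⟨h1, h2⟩ i hi
        cases i with
        | zero => exact h1
        | succ n => exact h2 n ((hmem n).2 hi)
    rw [hpre, Measure.prod_prod, hpi, hprod]
    exact Finset.mul_prod_erase s (fun i => unif (t i)) h0
  · have hpre : Phi ⁻¹' (Set.pi s t) = Set.univ ×ˢ (Set.pi s' fun n => t (n + 1)) := by
      ext z
      simp only [Set.mem_preimage, Set.mem_pi, Set.mem_prod, Finset.mem_coe, Set.mem_univ,
        true_and]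
      constructor
      · intro h n hn
        exact h (n + 1) ((hmem n).1 hn)
      · intro h2 i hi
        cases i with
        | zero => exact absurd hi h0
        | succ n => exact h2 n ((hmem n).2 hi)
    rw [hpre, Measure.prod_prod, hpi, hprod, measure_univ, one_mul, erase_eq_of_notMem h0]

theorem measurable_shift : Measurable shift := by
  rw [measurable_pi_iff]
  intro i
  exact measurable_pi_apply (i + 1)

theorem main : Pool.Agent.Q214.RH.TaskSplit := by
  intro g hg
  have hm : Measurable fun u : ℕ → ℝ => g (u 0, shift u) :=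
    hg.comp ((measurable_pi_apply 0).prodMk measurable_shift)
  calc ∫⁻ u, g (u 0, shift u) ∂PU
      = ∫⁻ u, g (u 0, shift u) ∂((unif.prod PU).map Phi) := by rw [map_Phi]
    _ = ∫⁻ z, g (Phi z 0, shift (Phi z)) ∂(unif.prod PU) := lintegral_map hm measurable_Phi
    _ = ∫⁻ z, g z ∂(unif.prod PU) := rfl
    _ = ∫⁻ x, ∫⁻ u, g (x, u) ∂PU ∂unif := lintegral_prod g hg.aemeasurable

end Pool.Agent.Q214.RH.TSplit
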