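import Mathlib
import Pool.Agent.Q214.RH.Stmts

set_option autoImplicit false

namespace Pool.Agent.Q214.RH.TStep

open MeasureTheory Set Pool.Agent.Q214.RH
open scoped ENNReal

/-- the mean after the first record time `n` -/
noncomputable def GG (g : ℝ → ℝ≥0∞) (n : ℕ) : ℝ≥0∞ := ∫⁻ u, g (1 / (n : ℝ) + tau n u) ∂PU

theorem key (hS : TaskSplit) (hT : TaskTauShift) (hG : TaskGood) (hM : TaskMeas) (K : ℕ)
    (hK : 1 ≤ K) (g : ℝ → ℝ≥0∞) (hg : Measurable g) :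
    ∫⁻ u, g (tau K u) ∂PU = ∫⁻ x in Ioc (0 : ℝ) 1, GG g ⌈(K : ℝ) / x⌉₊ := by
  have hm : Measurable (fun p : ℝ × (ℕ → ℝ) =>
      g (1 / ((⌈(K : ℝ) / p.1⌉₊ : ℕ) : ℝ) + tau ⌈(K : ℝ) / p.1⌉₊ p.2)) := by
    have h1 : Measurable (fun p : ℕ × (ℕ → ℝ) => g (1 / (p.1 : ℝ) + tau p.1 p.2)) := by
      refine measurable_from_prod_countable_right fun n => ?_
      have h0 : Measurable (fun u : ℕ → ℝ => 1 / (n : ℝ) + tau n u) := (hM.2 n).const_add _
      exact hg.comp h0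
    have h2 : Measurable (fun p : ℝ × (ℕ → ℝ) => ((⌈(K : ℝ) / p.1⌉₊ : ℕ), p.2)) :=
      (Nat.measurable_ceil.comp (measurable_const.div measurable_fst)).prodMk measurable_snd
    exact h1.comp h2
  have h3 := hS _ hm
  have h4 : ∫⁻ u, g (tau K u) ∂PU = ∫⁻ u, (fun p : ℝ × (ℕ → ℝ) =>
      g (1 / ((⌈(K : ℝ) / p.1⌉₊ : ℕ) : ℝ) + tau ⌈(K : ℝ) / p.1⌉₊ p.2)) (u 0, shift u) ∂PU := by
    refine lintegral_congr_ae (hG.mono fun u hu => ?_)
    simp only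
    rw [hT u hu K hK]
  rw [h4, h3]
  rfl

theorem main (hS : TaskSplit) (hT : TaskTauShift) (hG : TaskGood) (hM : TaskMeas) :
    Pool.Agent.Q214.RH.TaskStep := by
  intro K hK g hg
  rw [key hS hT hG hM K hK g hg, key hS hT hG hM (K + 1) (by omega) g hg]
  have hK0 : (0 : ℝ) < K := by exact_mod_cast hK
  set c : ℝ := (K : ℝ) / ((K : ℝ) + 1) with hc
  have hc0 : 0 < c := by positivity
  have hc1 : c < 1 := by rw [hc, div_lt_one (by positivity)]; linarith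
  have hsplit : Ioc (0 : ℝ) 1 = Ioc 0 c ∪ Ioc c 1 := (Ioc_union_Ioc_eq_Ioc hc0.le hc1.le).symm
  have hdisj : Disjoint (Ioc (0 : ℝ) c) (Ioc c 1) := Ioc_disjoint_Ioc_of_le le_rfl
  have hleft : ∫⁻ x in Ioc (0 : ℝ) 1, GG g ⌈(K : ℝ) / x⌉₊ =
      (∫⁻ x in Ioc (0 : ℝ) c, GG g ⌈(K : ℝ) / x⌉₊) + ∫⁻ x in Ioc c 1, GG g ⌈(K : ℝ) / x⌉₊ := by
    rw [hsplit, lintegral_union measurableSet_Ioc hdisj]
  have h1 : ∫⁻ x in Ioc c 1, GG g ⌈(K : ℝ) / x⌉₊ =
      ENNReal.ofReal (1 / ((K : ℝ) + 1)) * GG g (K + 1) := by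
    have h2 : ∫⁻ x in Ioc c 1, GG g ⌈(K : ℝ) / x⌉₊ = ∫⁻ x in Ioo c 1, GG g ⌈(K : ℝ) / x⌉₊ :=
      (setLIntegral_congr Ioo_ae_eq_Ioc).symm
    have h3 : ∫⁻ x in Ioo c 1, GG g ⌈(K : ℝ) / x⌉₊ = ∫⁻ _x in Ioo c 1, GG g (K + 1) := by
      refine setLIntegral_congr_fun measurableSet_Ioo fun x hx => ?_
      have hx0 : 0 < x := hc0.trans hx.1
      have h4 : ⌈(K : ℝ) / x⌉₊ = K + 1 := by
        rw [Nat.ceil_eq_iff (by omega)]
        constructor
        · push_cast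
          rw [lt_div_iff₀ hx0]
          nlinarith [hx.2]
        · push_cast
          rw [div_le_iff₀ hx0]
          have h5 := hx.1
          rw [hc, div_lt_iff₀ (by positivity)] at h5
          linarith
      simp only [h4]
    rw [h2, h3, setLIntegral_const, Real.volume_Ioo, mul_comm]
    congr 2
    rw [hc]
    field_simp
    ring
  have h6 : ∫⁻ x in Ioc (0 : ℝ) c, GG g ⌈(K : ℝ) / x⌉₊ =
      ENNReal.ofReal c * ∫⁻ y in Ioc (0 : ℝ) 1, GG g ⌈((K + 1 : ℕ) : ℝ) / y⌉₊ := by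
    have himg : (fun y : ℝ => c * y) '' Ioc (0 : ℝ) 1 = Ioc 0 c := by
      rw [Set.image_mul_left_Ioc hc0]
      simp
    have h7 := lintegral_image_eq_lintegral_abs_deriv_mul (s := Ioc (0 : ℝ) 1)
      (f := fun y : ℝ => c * y) (f' := fun _ => c) measurableSet_Ioc
      (fun y _ => by simpa using ((hasDerivAt_id y).const_mul c).hasDerivWithinAt)
      (fun a _ b _ hab => mul_left_cancel₀ hc0.ne' hab) (fun x => GG g ⌈(K : ℝ) / x⌉₊)
    rw [himg] at h7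
    rw [h7, abs_of_pos hc0, ← lintegral_const_mul' _ _ ENNReal.ofReal_ne_top]
    refine setLIntegral_congr_fun measurableSet_Ioc fun y hy => ?_
    have hy0 : y ≠ 0 := hy.1.ne'
    have h8 : (K : ℝ) / (c * y) = ((K + 1 : ℕ) : ℝ) / y := by
      rw [hc]
      push_cast
      field_simp
    simp only [h8]
  rw [hleft, h1, h6, add_comm]
  unfold GG
  push_cast
  rfl

end Pool.Agent.Q214.RH.TStep
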