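import Pool.Agent.Q214.RH.Stmts
set_option autoImplicit false

namespace Pool.Agent.Q214.RH.TSum

open MeasureTheory ProbabilityTheory Finset Pool.Agent.Q214.RH
open scoped ENNReal

theorem main : Pool.Agent.Q214.RH.TaskSum := by
  intro Ω _ P _ X hX
  have hpos : ∀ n : ℕ, (0 : ℝ) < (n : ℝ) + 1 := fun n => by positivity
  have hg : ∀ n ω, 0 ≤ X n ω / ((n : ℝ) + 1) := fun n ω => by
    rcases hX.vals n ω with h | h <;> rw [h]
    · simp
    · exact div_nonneg zero_le_one (hpos n).le
  have hm : ∀ n, Measurable fun ω => ENNReal.ofReal (X n ω / ((n : ℝ) + 1)) := fun n =>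
    ((hX.meas n).div_const _).ennreal_ofReal
  have e : ∀ n : ℕ, ∫⁻ ω, ENNReal.ofReal (X n ω / ((n : ℝ) + 1)) ∂P =
      ENNReal.ofReal (1 / ((n : ℝ) + 1) ^ 2) := by
    intro n
    have h1 : (fun ω => ENNReal.ofReal (X n ω / ((n : ℝ) + 1))) =
        Set.indicator {ω | X n ω = 1} (fun _ => ENNReal.ofReal (1 / ((n : ℝ) + 1))) := by
      funext ω
      by_cases h : X n ω = 1
      · rw [Set.indicator_of_mem (show ω ∈ {ω | X n ω = 1} from h), h]
      · rw [Set.indicator_of_notMem (show ω ∉ {ω | X n ω = 1} from h),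
          (hX.vals n ω).resolve_right h]
        simp
    have hms : MeasurableSet {ω | X n ω = 1} := (hX.meas n) (measurableSet_singleton 1)
    rw [h1, lintegral_indicator_const hms, hX.law n,
      ← ENNReal.ofReal_mul (div_nonneg zero_le_one (hpos n).le)]
    congr 1
    have := (hpos n).ne'
    field_simp
  have hsum : Summable fun n : ℕ => 1 / ((n : ℝ) + 1) ^ 2 := by
    have := (summable_nat_add_iff 1).2 (Real.summable_one_div_nat_pow.2 (one_lt_two))
    refine this.congr fun n => ?_
    push_cast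
    rfl
  have hfin : ∫⁻ ω, ∑' n, ENNReal.ofReal (X n ω / ((n : ℝ) + 1)) ∂P ≠ ∞ := by
    rw [lintegral_tsum fun n => (hm n).aemeasurable]
    simp_rw [e]
    exact hsum.tsum_ofReal_ne_top
  filter_upwards [ae_lt_top (Measurable.ennreal_tsum hm) hfin] with ω hω
  have h2 := ENNReal.summable_toReal hω.ne
  refine h2.congr fun n => ?_
  exact ENNReal.toReal_ofReal (hg n ω)

end Pool.Agent.Q214.RH.TSum
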