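import Mathlib
import Pool.Agent.Q214.RH.Stmts

/-!
# Blueprint for MP_5a22fd_pr: the exponential tail of the Dickman variable
-/

set_option autoImplicit false

namespace Pool.Agent.Q214.RH.TTail

open MeasureTheory ProbabilityTheory Finset Filter
open scoped ENNReal Topology

/-- partial sums of the Dickman variable -/
noncomputable def Dn (n : ℕ) (u : ℕ → ℝ) : ℝ := ∑ j ∈ range n, ∏ i ∈ range (j + 1), u i

lemma Dn_succ (n : ℕ) (u : ℕ → ℝ) : Dn (n + 1) u = u 0 * (1 + Dn n (shift u)) := by
  unfold Dn shift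
  rw [Finset.sum_range_succ']
  have h : ∀ j ∈ range n, ∏ i ∈ range (j + 1 + 1), u i = u 0 * ∏ i ∈ range (j + 1), u (i + 1) := by
    intro j _
    rw [Finset.prod_range_succ']
    ring
  rw [Finset.sum_congr rfl h, ← Finset.mul_sum]
  simp
  ring

lemma Dn_meas (n : ℕ) : Measurable (Dn n) := by
  unfold Dn
  exact Finset.measurable_fun_sum _ (fun j _ =>
    Finset.measurable_fun_prod _ (fun i _ => measurable_pi_apply i))

lemma key (s : ℝ) (_hs : 0 ≤ s) :
    ∫⁻ x, ENNReal.ofReal (Real.exp (s * x) * Real.exp (Real.exp (s * x) - 1)) ∂unif ≤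
      ENNReal.ofReal (Real.exp (Real.exp s - 1)) := by
  set F' : ℝ → ℝ := fun x => Real.exp (Real.exp (s * x) - 1) +
    x * (Real.exp (Real.exp (s * x) - 1) * (Real.exp (s * x) * s)) with hF'
  have hder : ∀ x : ℝ, HasDerivAt (fun x => x * Real.exp (Real.exp (s * x) - 1)) (F' x) x := by
    intro x
    have h1 : HasDerivAt (fun x : ℝ => s * x) s x := by simpa using (hasDerivAt_id x).const_mul s
    have h3 := (h1.exp.sub_const 1).exp
    have h4 := (hasDerivAt_id x).mul h3
    refine h4.congr_deriv ?_
    simp [hF']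
  have hcont : Continuous F' := by
    rw [hF']
    fun_prop
  have hint : ∫ x in (0:ℝ)..1, F' x = Real.exp (Real.exp s - 1) := by
    rw [intervalIntegral.integral_eq_sub_of_hasDerivAt (fun x _ => hder x)
      (hcont.intervalIntegrable _ _)]
    simp
  have hle : ∀ x ∈ Set.Ioc (0:ℝ) 1,
      Real.exp (s * x) * Real.exp (Real.exp (s * x) - 1) ≤ F' x := by
    intro x hx
    have hE : 0 < Real.exp (Real.exp (s * x) - 1) := Real.exp_pos _
    have h1 : Real.exp (s * x) ≤ 1 + (s * x) * Real.exp (s * x) := by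
      have h2 := Real.add_one_le_exp (-(s * x))
      have h3 : Real.exp (-(s * x)) * Real.exp (s * x) = 1 := by
        rw [← Real.exp_add]
        simp
      nlinarith [Real.exp_pos (s * x)]
    rw [hF']
    simp only
    nlinarith
  have hnn : ∀ x ∈ Set.Ioc (0:ℝ) 1, 0 ≤ F' x := fun x hx =>
    le_trans (by positivity) (hle x hx)
  calc ∫⁻ x, ENNReal.ofReal (Real.exp (s * x) * Real.exp (Real.exp (s * x) - 1)) ∂unif
      ≤ ∫⁻ x, ENNReal.ofReal (F' x) ∂unif := by
        unfold unif
        refine setLIntegral_mono' measurableSet_Ioc ?_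
        intro x hx
        exact ENNReal.ofReal_le_ofReal (hle x hx)
    _ = ENNReal.ofReal (∫ x, F' x ∂unif) := by
        symm
        apply ofReal_integral_eq_lintegral_ofReal
        · unfold unif
          have h := hcont.intervalIntegrable (μ := volume) 0 1
          rw [intervalIntegrable_iff_integrableOn_Ioc_of_le zero_le_one] at h
          exact h
        · unfold unif
          rw [EventuallyLE, ae_restrict_iff' measurableSet_Ioc]
          exact Filter.Eventually.of_forall (fun x hx => hnn x hx)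
    _ = ENNReal.ofReal (Real.exp (Real.exp s - 1)) := by
        rw [← hint, intervalIntegral.integral_of_le zero_le_one]
        rfl

lemma bound (hS : TaskSplit) (n : ℕ) : ∀ s : ℝ, 0 ≤ s →
    ∫⁻ u, ENNReal.ofReal (Real.exp (s * Dn n u)) ∂PU ≤
      ENNReal.ofReal (Real.exp (Real.exp s - 1)) := by
  induction n with
  | zero =>
    intro s hs
    simp only [Dn, Finset.range_zero, Finset.sum_empty, mul_zero, Real.exp_zero,
      ENNReal.ofReal_one, lintegral_const, measure_univ, mul_one]
    rw [ENNReal.one_le_ofReal]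
    have h : 1 ≤ Real.exp s := Real.one_le_exp hs
    exact Real.one_le_exp (by linarith)
  | succ n ih =>
    intro s hs
    have hg : Measurable (fun p : ℝ × (ℕ → ℝ) =>
        ENNReal.ofReal (Real.exp (s * (p.1 * (1 + Dn n p.2))))) := by
      have h1 : Measurable (fun p : ℝ × (ℕ → ℝ) => Dn n p.2) := (Dn_meas n).comp measurable_snd
      exact (Real.measurable_exp.comp
        ((measurable_fst.mul (h1.const_add 1)).const_mul s)).ennreal_ofReal
    have h := hS _ hg
    simp only at h
    have h0 : ∀ u : ℕ → ℝ, Dn (n + 1) u = u 0 * (1 + Dn n (shift u)) := Dn_succ n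
    simp only [h0]
    rw [h]
    refine le_trans ?_ (key s hs)
    unfold unif
    refine setLIntegral_mono' measurableSet_Ioc ?_
    intro x hx
    have h1 : ∀ u : ℕ → ℝ, ENNReal.ofReal (Real.exp (s * (x * (1 + Dn n u)))) =
        ENNReal.ofReal (Real.exp (s * x)) * ENNReal.ofReal (Real.exp ((s * x) * Dn n u)) := by
      intro u
      rw [← ENNReal.ofReal_mul (Real.exp_pos _).le, ← Real.exp_add]
      congr 2
      ring
    simp only [h1]
    rw [lintegral_const_mul' _ _ ENNReal.ofReal_ne_top, ENNReal.ofReal_mul (Real.exp_pos _).le]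
    gcongr
    exact ih (s * x) (mul_nonneg hs hx.1.le)

theorem main (hS : TaskSplit) (hG : TaskGood) : TaskTail := by
  refine ⟨Real.exp (Real.exp 1 - 1), Real.exp_pos _, ?_⟩
  intro L
  set G : (ℕ → ℝ) → ℝ≥0∞ := fun u =>
    liminf (fun n => ENNReal.ofReal (Real.exp (Dn n u))) atTop with hGdef
  have hGm : Measurable G := by
    apply Measurable.liminf
    intro n
    exact (Real.measurable_exp.comp (Dn_meas n)).ennreal_ofReal
  have hGint : ∫⁻ u, G u ∂PU ≤ ENNReal.ofReal (Real.exp (Real.exp 1 - 1)) := by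
    refine le_trans (lintegral_liminf_le
      (fun n => (Real.measurable_exp.comp (Dn_meas n)).ennreal_ofReal)) ?_
    refine le_trans (Filter.liminf_le_liminf (v := fun _ : ℕ =>
      ENNReal.ofReal (Real.exp (Real.exp 1 - 1))) ?_) ?_
    · refine Filter.Eventually.of_forall (fun n => ?_)
      have h := bound hS n 1 zero_le_one
      simpa using h
    · simp
  have hsub : PU {u | L ≤ D u} ≤ PU {u | ENNReal.ofReal (Real.exp L) ≤ G u} := by
    apply measure_mono_ae
    filter_upwards [hG] with u hu hL
    have ht : Tendsto (fun n => Dn n u) atTop (𝓝 (D u)) := hu.2.hasSum.tendsto_sum_nat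
    have ht2 : Tendsto (fun n => ENNReal.ofReal (Real.exp (Dn n u))) atTop
        (𝓝 (ENNReal.ofReal (Real.exp (D u)))) :=
      (ENNReal.continuous_ofReal.tendsto _).comp ((Real.continuous_exp.tendsto _).comp ht)
    have hL' : L ≤ D u := hL
    show ENNReal.ofReal (Real.exp L) ≤ G u
    rw [hGdef]
    simp only
    rw [ht2.liminf_eq]
    exact ENNReal.ofReal_le_ofReal (Real.exp_le_exp.mpr hL')
  have hM := mul_meas_ge_le_lintegral₀ hGm.aemeasurable (μ := PU) (ENNReal.ofReal (Real.exp L))
  have h1 : ENNReal.ofReal (Real.exp L) * PU {u | L ≤ D u} ≤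
      ENNReal.ofReal (Real.exp (Real.exp 1 - 1)) :=
    le_trans (mul_le_mul_right hsub _) (le_trans hM hGint)
  have h2 : Real.exp L * tl L ≤ Real.exp (Real.exp 1 - 1) := by
    have h3 := ENNReal.toReal_mono ENNReal.ofReal_ne_top h1
    rw [ENNReal.toReal_mul, ENNReal.toReal_ofReal (Real.exp_pos _).le,
      ENNReal.toReal_ofReal (Real.exp_pos _).le] at h3
    exact h3
  have h4 : tl L = Real.exp (-L) * (Real.exp L * tl L) := by
    rw [← mul_assoc, ← Real.exp_add]
    simp
  rw [h4, mul_comm (Real.exp (Real.exp 1 - 1))]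
  gcongr

end Pool.Agent.Q214.RH.TTail
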