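import Pool.Agent.Q214.RH.Stmts

set_option autoImplicit false

namespace Pool.Agent.Q214.RH.TTauShift

open Pool.Agent.Q214.RH

private lemma nn_shift (K : ℕ) (u : ℕ → ℝ) (j : ℕ) :
    nn K u (j + 1) = nn ⌈(K : ℝ) / u 0⌉₊ (shift u) j := by
  induction j with
  | zero => rfl
  | succ j ih =>
    show ⌈(nn K u (j + 1) : ℝ) / u (j + 1)⌉₊ = ⌈(nn ⌈(K : ℝ) / u 0⌉₊ (shift u) j : ℝ) / shift u j⌉₊
    rw [ih]; rfl

theorem main (hP : Pool.Agent.Q214.RH.TaskPath) : Pool.Agent.Q214.RH.TaskTauShift := by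
  intro u hu K hK
  have hs := (hP u hu K hK).1
  unfold tau
  rw [hs.tsum_eq_zero_add]
  congr 1
  refine tsum_congr fun j => ?_
  rw [nn_shift K u (j + 1)]

end Pool.Agent.Q214.RH.TTauShift
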