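import Mathlib
import Pool.Agent.Q214.RH.Asm
import Pool.Agent.Q214.RH.TaskBorel
import Pool.Agent.Q214.RH.TaskCmp
import Pool.Agent.Q214.RH.TaskConc
import Pool.Agent.Q214.RH.TaskDens
import Pool.Agent.Q214.RH.TaskF1
import Pool.Agent.Q214.RH.TaskF2
import Pool.Agent.Q214.RH.TaskF3
import Pool.Agent.Q214.RH.TaskGood
import Pool.Agent.Q214.RH.TaskInv
import Pool.Agent.Q214.RH.TaskIter
import Pool.Agent.Q214.RH.TaskLaw
import Pool.Agent.Q214.RH.TaskLow
import Pool.Agent.Q214.RH.TaskMeas
import Pool.Agent.Q214.RH.TaskPath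
import Pool.Agent.Q214.RH.TaskQ
import Pool.Agent.Q214.RH.TaskShift
import Pool.Agent.Q214.RH.TaskSplit
import Pool.Agent.Q214.RH.TaskStep
import Pool.Agent.Q214.RH.TaskSum
import Pool.Agent.Q214.RH.TaskTail
import Pool.Agent.Q214.RH.TaskTauShift

/-!
# The blueprint put together
-/

set_option autoImplicit false

namespace Pool.Agent.Q214.RH

open MeasureTheory ProbabilityTheory

theorem good' : TaskGood := TGood.main
theorem meas' : TaskMeas := TMeas.main
theorem path' : TaskPath := TPath.main
theorem shift' : TaskShift := TShift.main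
theorem split' : TaskSplit := TSplit.main
theorem tauShift' : TaskTauShift := TTauShift.main path'
theorem dens' : TaskDens := TDens.main split' shift' good' meas'
theorem f1' : TaskF1 := TF1.main good' shift' meas'
theorem f2' : TaskF2 := TF2.main good' shift' meas'
theorem f3' : TaskF3 := TF3.main meas' dens' f1'
theorem step' : TaskStep := TStep.main split' tauShift' good' meas'
theorem low' : TaskLow := TLow.main f1' f3'

theorem sum_ae : TaskSum := TSum.main

theorem final (Ω : Type) [MeasurableSpace Ω] (P : Measure Ω) [IsProbabilityMeasure P]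
    (X : ℕ → Ω → ℝ) (hX : Rec P X) :
    ∃ B : ℝ, 0 ≤ B ∧ ∀ E : Set ℝ, MeasurableSet E →
      (P.map (S X)) E ≤ ENNReal.ofReal B * volume E :=
  asm good' meas' path' shift' (TTail.main split' good') dens' f1' f2' f3' step' TInv.main sum_ae TLaw.main
    TCmp.main TQ.main TConc.main low' TIter.main TBorel.main Ω P X hX

end Pool.Agent.Q214.RH
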