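import Pool.Agent.Q214.RH.Stmts

set_option autoImplicit false

namespace Pool.Agent.Q214.RH.TPath

open Finset

theorem main : Pool.Agent.Q214.RH.TaskPath := by
  intro u hu K hK
  obtain ⟨h01, hsum⟩ := hu
  obtain ⟨p, hp⟩ : ∃ p : ℕ → ℝ, p = fun j => ∏ i ∈ range j, u i := ⟨_, rfl⟩
  have hpj : ∀ j, ∏ i ∈ range (j + 1), u i = p (j + 1) := fun j => by rw [hp]
  have hp0 : p 0 = 1 := by simp [hp]
  have hps : ∀ j, p (j + 1) = p j * u j := fun j => by simp [hp, prod_range_succ]
  have hppos : ∀ j, 0 < p j := fun j => by rw [hp]; exact prod_pos fun i _ => (h01 i).1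
  have hK0 : (0 : ℝ) < K := by exact_mod_cast hK
  simp only [hpj] at hsum
  have hDe : D u = ∑' j, p (j + 1) := by unfold D; simp only [hpj]
  have hn : ∀ j, 0 < (nn K u j : ℝ) ∧ (K : ℝ) ≤ nn K u j * p j := by
    intro j
    induction j with
    | zero =>
      refine ⟨hK0, ?_⟩
      rw [hp0, mul_one]
      exact le_rfl
    | succ j ih =>
      obtain ⟨h1, h2⟩ := ih
      have h3 : (nn K u j : ℝ) / u j ≤ (nn K u (j + 1) : ℝ) := Nat.le_ceil _
      have h4 : 0 < (nn K u j : ℝ) / u j := div_pos h1 (h01 j).1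
      refine ⟨h4.trans_le h3, ?_⟩
      rw [hps]
      rw [div_le_iff₀ (h01 j).1] at h3
      calc (K : ℝ) ≤ nn K u j * p j := h2
        _ ≤ (nn K u (j + 1) * u j) * p j := mul_le_mul_of_nonneg_right h3 (hppos j).le
        _ = _ := by ring
  have hup : ∀ j, (nn K u j : ℝ) * p j ≤ K + ∑ i ∈ range j, p (i + 1) := by
    intro j
    induction j with
    | zero =>
      rw [hp0, mul_one, sum_range_zero, add_zero]
      exact le_rfl
    | succ j ih =>
      have h1 : (nn K u (j + 1) : ℝ) ≤ (nn K u j : ℝ) / u j + 1 :=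
        (Nat.ceil_lt_add_one (div_nonneg (Nat.cast_nonneg _) (h01 j).1.le)).le
      have h2 : (nn K u (j + 1) : ℝ) * p (j + 1) ≤ ((nn K u j : ℝ) / u j + 1) * p (j + 1) :=
        mul_le_mul_of_nonneg_right h1 (hppos _).le
      have h3 : ((nn K u j : ℝ) / u j + 1) * p (j + 1) = nn K u j * p j + p (j + 1) := by
        rw [hps]
        have := (h01 j).1.ne'
        field_simp
      rw [sum_range_succ]
      linarith
  have hD : ∀ j, ∑ i ∈ range j, p (i + 1) ≤ D u := fun j => by
    rw [hDe]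
    exact hsum.sum_le_tsum _ fun i _ => (hppos _).le
  have hD0 : 0 ≤ D u := by
    rw [hDe]
    exact tsum_nonneg fun i => (hppos _).le
  have hb : ∀ j, 1 / (nn K u (j + 1) : ℝ) ≤ p (j + 1) / K := by
    intro j
    rw [div_le_div_iff₀ (hn _).1 hK0]
    have := (hn (j + 1)).2
    linarith
  have hl : ∀ j, p (j + 1) / (K + D u) ≤ 1 / (nn K u (j + 1) : ℝ) := by
    intro j
    rw [div_le_div_iff₀ (by linarith) (hn _).1]
    have h1 := hup (j + 1)
    have h2 := hD (j + 1)
    linarith
  have hs : Summable (fun j => 1 / (nn K u (j + 1) : ℝ)) :=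
    Summable.of_nonneg_of_le (fun j => (one_div_pos.2 (hn _).1).le) hb (hsum.div_const _)
  refine ⟨hs, ?_, ?_⟩
  · have h1 : D u / (K + D u) ≤ tau K u := by
      unfold tau
      rw [hDe, ← tsum_div_const, ← hDe]
      exact (hsum.div_const _).tsum_le_tsum hl hs
    refine le_trans ?_ h1
    have hKD : 0 < (K : ℝ) + D u := by linarith
    rw [div_pow, div_sub_div _ _ hK0.ne' (by positivity), div_le_div_iff₀ (by positivity) hKD]
    have : 0 ≤ D u ^ 3 * K := by positivity
    nlinarith [this]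
  · unfold tau
    rw [hDe, ← tsum_div_const]
    exact hs.tsum_le_tsum hb (hsum.div_const _)

end Pool.Agent.Q214.RH.TPath
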